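import Mathlib
import Pool.Agent.H330.Cof
import Pool.Agent.H330.Tree

/-!
# Basic tools: blocks of a singular cardinal, three-place colourings
-/

set_option autoImplicit false

open Cardinal Set

universe u

namespace Pool.Agent.H55R3.GCH

open Pool.Agent.H330

/-- a colouring of the triples of a linear order from a function of three arguments -/
lemma exists_color3 {V Γ : Type u} [LinearOrder V] (G : V → V → V → Γ) (c : Γ) :
    ∃ g : Finset V → Γ, ∀ a b d, a < b → b < d → g {a, b, d} = G a b d := by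
  classical
  refine ⟨fun s => if h : s.card = 3 then
    G (s.orderEmbOfFin h 0) (s.orderEmbOfFin h 1) (s.orderEmbOfFin h 2) else c, ?_⟩
  intro a b d hab hbd
  have had := hab.trans hbd
  have hcard : ({a, b, d} : Finset V).card = 3 := by
    rw [Finset.card_insert_of_notMem (by simp [hab.ne, had.ne]),
      Finset.card_insert_of_notMem (by simp [hbd.ne]), Finset.card_singleton]
  show dite _ _ _ = _
  rw [dif_pos hcard]
  have hmono : StrictMono ![a, b, d] := by
    intro i j hij
    fin_cases i <;> fin_cases j <;> first | exact absurd hij (by decide) | simpa using hab | simpa using had | simpa using hbd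
  have hmem : ∀ i, (![a, b, d] : Fin 3 → V) i ∈ ({a, b, d} : Finset V) := by
    intro i; fin_cases i <;> simp
  have hu := Finset.orderEmbOfFin_unique hcard hmem hmono
  have e0 := congrFun hu 0
  have e1 := congrFun hu 1
  have e2 := congrFun hu 2
  simp only [Matrix.cons_val_zero, Matrix.cons_val_one, Matrix.cons_val] at e0 e1 e2
  rw [← e0, ← e1, ← e2]

/-- a colouring of the pairs of a linear order from a function of two arguments -/
lemma exists_color2 {V Γ : Type u} [LinearOrder V] (G : V → V → Γ) (c : Γ) :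
    ∃ g : Finset V → Γ, ∀ a b, a < b → g {a, b} = G a b := by
  classical
  refine ⟨fun s => if h : s.card = 2 then
    G (s.orderEmbOfFin h 0) (s.orderEmbOfFin h 1) else c, ?_⟩
  intro a b hab
  have hcard : ({a, b} : Finset V).card = 2 := Finset.card_pair hab.ne
  show dite _ _ _ = _
  rw [dif_pos hcard]
  have hmono : StrictMono ![a, b] := by
    intro i j hij
    fin_cases i <;> fin_cases j <;> first | exact absurd hij (by decide) | simpa using hab
  have hmem : ∀ i, (![a, b] : Fin 2 → V) i ∈ ({a, b} : Finset V) := by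
    intro i; fin_cases i <;> simp
  have hu := Finset.orderEmbOfFin_unique hcard hmem hmono
  have e0 := congrFun hu 0
  have e1 := congrFun hu 1
  simp only [Matrix.cons_val_zero, Matrix.cons_val_one, Matrix.cons_val] at e0 e1
  rw [← e0, ← e1]

/-- a negative relation for pairs, in terms of ordered pairs -/
lemma na_two {V Γ : Type u} [LinearOrder V] {lam : Γ → Cardinal.{u}} (G : V → V → Γ) (c : Γ)
    (h : ∀ ν (Y : Set V), #Y = lam ν → (∀ a ∈ Y, ∀ b ∈ Y, a < b → G a b = ν) → False) :
    ∃ g : Finset V → Γ, NA lam 2 g := by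
  classical
  obtain ⟨g, hg⟩ := exists_color2 G c
  refine ⟨g, fun ν Y hY => ?_⟩
  by_contra hcon
  push Not at hcon
  refine h ν Y hY fun a ha b hb hab => ?_
  rw [← hg a b hab]
  refine hcon _ (Finset.card_pair hab.ne) ?_
  intro x hx
  simp only [Finset.coe_insert, Finset.coe_singleton, Set.mem_insert_iff,
    Set.mem_singleton_iff] at hx
  rcases hx with rfl | rfl <;> assumption

/-- a negative relation for triples, in terms of ordered triples -/
lemma na_three {V Γ : Type u} [LinearOrder V] {lam : Γ → Cardinal.{u}} (G : V → V → V → Γ) (c : Γ)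
    (h : ∀ ν (Y : Set V), #Y = lam ν →
      (∀ a ∈ Y, ∀ b ∈ Y, ∀ d ∈ Y, a < b → b < d → G a b d = ν) → False) :
    ∃ g : Finset V → Γ, NA lam 3 g := by
  classical
  obtain ⟨g, hg⟩ := exists_color3 G c
  refine ⟨g, fun ν Y hY => ?_⟩
  by_contra hcon
  push Not at hcon
  refine h ν Y hY fun a ha b hb d hd hab hbd => ?_
  rw [← hg a b d hab hbd]
  refine hcon _ ?_ ?_
  · rw [Finset.card_insert_of_notMem (by simp [hab.ne, (hab.trans hbd).ne]),
      Finset.card_insert_of_notMem (by simp [hbd.ne]), Finset.card_singleton]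
  · intro x hx
    simp only [Finset.coe_insert, Finset.coe_singleton, Set.mem_insert_iff,
      Set.mem_singleton_iff] at hx
    rcases hx with rfl | rfl | rfl <;> assumption

/-- if all initial segments of a well-ordered type have at most `M` elements then the type has
at most `M⁺` elements -/
lemma mk_le_of_Iio {W : Type u} [LinearOrder W] [WellFoundedLT W] (Y : Set W) (M : Cardinal.{u})
    (h : ∀ y ∈ Y, #{x | x ∈ Y ∧ x < y} ≤ M) : #Y ≤ Order.succ M := by
  by_contra hcon
  push Not at hcon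
  have h1 : (Order.succ M).ord < Ordinal.type (fun x y : Y => x < y) := by
    rw [← not_le]
    intro h
    have h2 := Ordinal.card_le_card h
    rw [Cardinal.card_ord, Ordinal.card_type] at h2
    exact absurd hcon (not_lt.2 h2)
  have h3 := Ordinal.typein_enum (fun x y : Y => x < y) h1
  set z : Y := Ordinal.enum (fun x y : Y => x < y) ⟨(Order.succ M).ord, h1⟩ with hz
  have h4 := congrArg Ordinal.card h3
  rw [Cardinal.card_ord] at h4
  have h5 : #{x : Y | x < z} = Order.succ M := Eq.trans rfl h4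
  have h6 : #{x : Y | x < z} ≤ #{x | x ∈ Y ∧ x < z.1} := by
    refine Cardinal.mk_le_of_injective (f := fun x => ⟨x.1.1, x.1.2, x.2⟩) ?_
    intro x y hxy
    have := congrArg Subtype.val hxy
    exact Subtype.ext (Subtype.ext this)
  rw [h5] at h6
  exact absurd (h6.trans (h z.1 z.2)) (not_le.2 (Order.lt_succ M))

/-- four elements -/
lemma exists_four {V : Type u} [LinearOrder V] {Y : Set V} (hY : (4 : Cardinal.{u}) ≤ #Y) :
    ∃ a ∈ Y, ∃ b ∈ Y, ∃ c ∈ Y, ∃ d ∈ Y, a < b ∧ b < c ∧ c < d := by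
  classical
  obtain ⟨E, hE, hEn⟩ := exists_finset_card (n := 4) (by exact_mod_cast hY)
  set g := E.orderEmbOfFin hEn
  have hg : ∀ i, g i ∈ Y := fun i => hE (E.orderEmbOfFin_mem hEn i)
  exact ⟨g 0, hg 0, g 1, hg 1, g 2, hg 2, g 3, hg 3, g.strictMono (by decide),
    g.strictMono (by decide), g.strictMono (by decide)⟩

/-- the block function of a limit cardinal -/
lemma exists_blocks {κ : Cardinal.{u}} (hκ : ℵ₀ ≤ κ) (hlim : ∀ ρ < κ, Order.succ ρ < κ) :
    ∃ bl : κ.ord.ToType → κ.ord.cof.ord.ToType, Monotone bl ∧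
      ∀ k, #{l | bl l ≤ k} < κ := by
  classical
  obtain ⟨m, hm1, hm2, hm3⟩ := cofmap κ
  have hex : ∀ l : κ.ord.ToType, ({i | #(Iio l) ≤ m i} : Set κ.ord.cof.ord.ToType).Nonempty := by
    intro l
    obtain ⟨i, hi⟩ := hm3 _ (Cardinal.mk_Iio_toType_ord_lt l)
    exact ⟨i, hi⟩
  let bl : κ.ord.ToType → κ.ord.cof.ord.ToType := fun l => wellFounded_lt.min _ (hex l)
  have hbl0 : ∀ l, #(Iio l) ≤ m (bl l) := fun l => wellFounded_lt.min_mem _ (hex l)
  have hbl : Monotone bl := by
    intro l l' hll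
    by_contra hc
    push Not at hc
    have h1 : #(Iio l) ≤ m (bl l') :=
      (Cardinal.mk_le_mk_of_subset (Iio_subset_Iio hll)).trans (hbl0 l')
    exact wellFounded_lt.not_lt_min _ (show bl l' ∈ {i | #(Iio l) ≤ m i} from h1) hc
  refine ⟨bl, hbl, fun k => ?_⟩
  refine lt_of_le_of_lt ?_ (hlim _ (hm2 k))
  obtain ⟨l0, hl0⟩ := exists_mk_Iio (hlim _ (hm2 k))
  rw [← hl0]
  refine Cardinal.mk_le_mk_of_subset ?_
  intro l hl
  by_contra hc
  have h1 : l0 ≤ l := not_lt.mp hc
  have h2 : #(Iio l0) ≤ #(Iio l) := Cardinal.mk_le_mk_of_subset (Iio_subset_Iio h1)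
  have h3 : #(Iio l) ≤ m k := (hbl0 l).trans (hm1 hl)
  rw [hl0] at h2
  exact absurd (h2.trans h3) (not_le.2 (Order.lt_succ _))

/-- a singular cardinal is a limit cardinal -/
lemma succ_lt_of_singular {κ : Cardinal.{u}} (hκ : ℵ₀ ≤ κ) (hs : κ.ord.cof < κ) :
    ∀ ρ < κ, Order.succ ρ < κ := by
  intro ρ hρ
  rcases (Order.succ_le_of_lt hρ).lt_or_eq with h | h
  · exact h
  · exfalso
    rcases lt_or_ge ρ ℵ₀ with h0 | h0
    · have : Order.succ ρ < ℵ₀ := by
        obtain ⟨n, rfl⟩ := Cardinal.lt_aleph0.1 h0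
        rw [Cardinal.succ_natCast]; exact_mod_cast Cardinal.natCast_lt_aleph0
      exact absurd hκ (not_le.2 (h ▸ this))
    · have hreg := Cardinal.isRegular_succ h0
      rw [h] at hreg
      exact absurd hs (not_lt.2 hreg.2)

/-- a normal colouring of the pairs of `κ⁺`, `κ` a limit cardinal -/
lemma exists_normal {κ : Cardinal.{u}} (hκ : ℵ₀ ≤ κ) (hlim : ∀ ρ < κ, Order.succ ρ < κ)
    {V : Type u} [LinearOrder V] (hV : ∀ v : V, #(Iio v) ≤ κ) :
    ∃ d : V → V → κ.ord.cof.ord.ToType, ∀ k, ∃ M < κ, ∀ v, #{x | x < v ∧ d x v ≤ k} ≤ M := by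
  classical
  obtain ⟨bl, hbl, hsmall⟩ := exists_blocks hκ hlim
  have hinj : ∀ v : V, Nonempty (Iio v ↪ κ.ord.ToType) := by
    intro v
    rw [← Cardinal.le_def, Cardinal.mk_ord_toType]
    exact hV v
  let e : ∀ v : V, Iio v ↪ κ.ord.ToType := fun v => (hinj v).some
  have hne : Nonempty κ.ord.cof.ord.ToType := by
    obtain ⟨x, -⟩ := exists_mk_Iio (μ := κ) (ρ := 0) (Cardinal.aleph0_pos.trans_le hκ)
    exact ⟨bl x⟩
  let d : V → V → κ.ord.cof.ord.ToType := fun x v =>
    if h : x < v then bl (e v ⟨x, h⟩) else Classical.choice hne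
  have hd : ∀ x v (h : x < v), d x v = bl (e v ⟨x, h⟩) := fun x v h => dif_pos h
  refine ⟨d, fun k => ⟨#{l | bl l ≤ k}, hsmall k, fun v => ?_⟩⟩
  refine Cardinal.mk_le_of_injective (f := fun x : {x | x < v ∧ d x v ≤ k} =>
    (⟨e v ⟨x.1, x.2.1⟩, by
      have h := x.2.2
      rw [hd x.1 v x.2.1] at h
      exact h⟩ : {l | bl l ≤ k})) ?_
  intro x y hxy
  have h1 := congrArg Subtype.val hxy
  have h2 := (e v).injective h1
  have h3 : x.1 = y.1 := congrArg (fun t : Iio v => t.1) h2
  exact Subtype.ext h3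

end Pool.Agent.H55R3.GCH
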