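import Mathlib
import Pool.Agent.H330.Tree

/-!
# Task statements (stepping-up under GCH, project H55GCH)
-/

set_option autoImplicit false

open Cardinal Set

universe u

namespace Pool.Agent.H55R3.GCH

open Pool.Agent.H330

/-- Task ER: the unbalanced Erdős–Rado theorem for pairs on a regular cardinal `θ`. -/
def TaskER : Prop :=
  ∀ (θ τ : Cardinal.{u}), θ.IsRegular → τ.IsRegular → τ < θ →
    ∀ (Γ : Type u), #Γ < τ → (∀ l < θ, ∀ n < τ, l ^ n < θ) →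
    ∀ (φ : θ.ord.ToType → θ.ord.ToType → Γ) (c0 : Γ),
    (∀ Y : Set θ.ord.ToType, #Y = θ → ∃ a ∈ Y, ∃ b ∈ Y, a < b ∧ φ a b ≠ c0) →
    ∃ c, c ≠ c0 ∧ ∃ A : Set θ.ord.ToType, τ ≤ #A ∧ ∀ a ∈ A, ∀ b ∈ A, a < b → φ a b = c

/-- Task Canon: canonisation for a singular strong limit `κ`, one point per block. -/
def TaskCanon : Prop :=
  ∀ (κ : Cardinal.{u}), ℵ₀ ≤ κ → κ.ord.cof < κ → (∀ ρ < κ, (2 : Cardinal.{u}) ^ ρ < κ) →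
    ∀ (Γ : Type u), #Γ < κ → ∀ (f : Finset κ.ord.ToType → Γ) (c0 : Γ) (τ : Cardinal.{u}), τ < κ →
    (∀ c, c ≠ c0 → ∀ Y : Set κ.ord.ToType, τ ≤ #Y → ∃ a ∈ Y, ∃ b ∈ Y, a < b ∧ f {a, b} ≠ c) →
    (∀ Y : Set κ.ord.ToType, #Y = κ → ∃ a ∈ Y, ∃ b ∈ Y, a < b ∧ f {a, b} ≠ c0) →
    ∃ x : κ.ord.cof.ord.ToType → κ.ord.ToType, Function.Injective x ∧
      ∀ Z : Set κ.ord.cof.ord.ToType, #Z = κ.ord.cof →
        ∃ i ∈ Z, ∃ j ∈ Z, i < j ∧ f {x i, x j} ≠ c0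

/-- Task Lex: `ρ⁺ ↛ (ρ⁺, (cf ρ)⁺)²` by the lexicographic order. -/
def TaskLex : Prop :=
  ∀ (ρ : Cardinal.{u}), ℵ₀ ≤ ρ → ρ.ord.cof < ρ →
    ∃ φ : (Order.succ ρ).ord.ToType → (Order.succ ρ).ord.ToType → Bool,
      (∀ Y : Set (Order.succ ρ).ord.ToType, (∀ a ∈ Y, ∀ b ∈ Y, a < b → φ a b = true) →
        #Y ≤ ρ.ord.cof) ∧
      (∀ Y : Set (Order.succ ρ).ord.ToType, (∀ a ∈ Y, ∀ b ∈ Y, a < b → φ a b = false) →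
        #Y ≤ ρ)

/-- Task Arith: cardinal arithmetic under GCH. -/
def TaskArith : Prop :=
  (∀ c : Cardinal.{u}, ℵ₀ ≤ c → (2 : Cardinal.{u}) ^ c = Order.succ c) →
    ∀ (ρ n : Cardinal.{u}), ℵ₀ ≤ ρ → n < ρ.ord.cof → ρ ^ n ≤ ρ

/-- Task Many: a negative relation with all entries at most `η < κ`, `η` singular, needs
cofinally many large entries. -/
def TaskMany : Prop :=
  (∀ c : Cardinal.{u}, ℵ₀ ≤ c → (2 : Cardinal.{u}) ^ c = Order.succ c) →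
    ∀ (κ η : Cardinal.{u}), ℵ₀ ≤ η → η.ord.cof < η → η < κ →
    ∀ (Γ : Type u) (lam : Γ → Cardinal.{u}) (f : Finset κ.ord.ToType → Γ),
    #Γ < η → (∀ ν, 2 ≤ lam ν ∧ lam ν ≤ η) → NA lam 2 f →
    ∀ τ < η, η.ord.cof ≤ #{ν : Γ | τ < lam ν}

/-- Task FromMany: cofinally many large entries allow lowering to regular entries. -/
def TaskFromMany : Prop :=
  ∀ (κ η : Cardinal.{u}), ℵ₀ ≤ η → η.ord.cof < η → ℵ₀ ≤ κ → κ ≤ Order.succ η →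
    ∀ (Γ : Type u) (lam : Γ → Cardinal.{u}), (∀ ν, 2 ≤ lam ν) →
    (∀ τ < η, η.ord.cof ≤ #{ν : Γ | τ < lam ν}) →
    ∃ lam' : Γ → Cardinal.{u}, (∀ ν, 2 ≤ lam' ν ∧ lam' ν ≤ lam ν) ∧ (∃ ν, (lam' ν).IsRegular) ∧
      ∃ f' : Finset κ.ord.ToType → Γ, NA lam' 2 f'

/-- Task Block: `κ` singular, an entry `κ` and another entry above `cf κ`. -/
def TaskBlock : Prop :=
  ∀ (κ : Cardinal.{u}), ℵ₀ ≤ κ → κ.ord.cof < κ →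
    ∀ (Γ : Type u) (lam : Γ → Cardinal.{u}) (c0 c1 : Γ), c1 ≠ c0 → (∀ ν, 2 ≤ lam ν) →
    lam c0 = κ → κ.ord.cof < lam c1 →
    ∃ lam' : Γ → Cardinal.{u}, (∀ ν, 2 ≤ lam' ν ∧ lam' ν ≤ lam ν) ∧ (∃ ν, (lam' ν).IsRegular) ∧
      ∃ f' : Finset κ.ord.ToType → Γ, NA lam' 2 f'

/-- Task New: the new construction. -/
def TaskNew : Prop :=
  ∀ (κ : Cardinal.{u}), ℵ₀ ≤ κ → κ.ord.cof < κ → (2 : Cardinal.{u}) ^ κ = Order.succ κ →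
    ∀ (Γ : Type u) (lam : Γ → Cardinal.{u}) (c0 : Γ), ℵ₀ ≤ #Γ →
    κ.ord.cof ≤ (2 : Cardinal.{u}) ^ #Γ → (∀ ν, 2 < lam ν) → lam c0 = κ →
    ∃ g : Finset ((2 : Cardinal.{u}) ^ κ).ord.ToType → Γ, NA (fun ν => lam ν + 1) 3 g

end Pool.Agent.H55R3.GCH
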