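import Pool.Agent.H55R3.GCH.Basic
import Pool.Agent.H55R3.GCH.Stmts
import Pool.Agent.H764R3.ER

/-!
# Negative relations on a singular cardinal by blocks, and many large entries
-/

set_option autoImplicit false

open Cardinal Set

universe u

namespace Pool.Agent.H55R3.GCH

open Pool.Agent.H330

/-- small subsets of a regular cardinal are bounded -/
lemma exists_bound {θ : Cardinal.{u}} (hθ : θ.IsRegular) (S : Set θ.ord.ToType) (hS : #S < θ) :
    ∃ k, ∀ i ∈ S, i ≤ k := by
  by_contra hcon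
  push Not at hcon
  have h1 : IsCofinal S := fun x => by
    obtain ⟨i, hi, hxi⟩ := hcon x
    exact ⟨i, hi, hxi.le⟩
  have h2 := Order.cof_le h1
  rw [Ordinal.cof_toType, hθ.cof_ord] at h2
  exact absurd h2 (not_le.2 hS)

lemma two_elements {V : Type u} [LinearOrder V] {Y : Set V} (hY : (2 : Cardinal.{u}) ≤ #Y) :
    ∃ a ∈ Y, ∃ b ∈ Y, a < b := by
  classical
  obtain ⟨E, hE, hEn⟩ := exists_finset_card (n := 2) (by exact_mod_cast hY)
  set g := E.orderEmbOfFin hEn
  have hg : ∀ i, g i ∈ Y := fun i => hE (E.orderEmbOfFin_mem hEn i)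
  exact ⟨g 0, hg 0, g 1, hg 1, g.strictMono (by decide)⟩

theorem block_gen {κ : Cardinal.{u}} (hκ : ℵ₀ ≤ κ) (hs : κ.ord.cof < κ) {σ : Cardinal.{u}}
    (hσ : ℵ₀ ≤ σ) (φ : κ.ord.cof.ord.ToType → κ.ord.cof.ord.ToType → Bool)
    (h1 : ∀ Y : Set κ.ord.cof.ord.ToType, (∀ a ∈ Y, ∀ b ∈ Y, a < b → φ a b = true) → #Y ≤ σ)
    (h2 : ∀ Y : Set κ.ord.cof.ord.ToType, (∀ a ∈ Y, ∀ b ∈ Y, a < b → φ a b = false) →
      #Y < κ.ord.cof)
    {Γ : Type u} {lam : Γ → Cardinal.{u}} {c0 c1 : Γ} (hne : c1 ≠ c0) (hlam : ∀ ν, 2 ≤ lam ν)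
    (hc0 : lam c0 = κ) (hc1 : σ < lam c1) :
    ∃ lam' : Γ → Cardinal.{u}, (∀ ν, 2 ≤ lam' ν ∧ lam' ν ≤ lam ν) ∧ (∃ ν, (lam' ν).IsRegular) ∧
      ∃ f' : Finset κ.ord.ToType → Γ, NA lam' 2 f' := by
  classical
  have hlim := succ_lt_of_singular hκ hs
  obtain ⟨bl, hbl, hsmall⟩ := exists_blocks hκ hlim
  have hreg : κ.ord.cof.IsRegular := Cardinal.isRegular_cof (Cardinal.isSuccLimit_ord hκ)
  let lam' : Γ → Cardinal.{u} := fun ν => if ν = c0 then κ else if ν = c1 then Order.succ σ else 2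
  have l0 : lam' c0 = κ := if_pos rfl
  have l1 : lam' c1 = Order.succ σ := by
    show ite _ _ _ = _
    rw [if_neg hne, if_pos rfl]
  have l2 : ∀ ν, ν ≠ c0 → ν ≠ c1 → lam' ν = 2 := by
    intro ν hν0 hν1
    show ite _ _ _ = _
    rw [if_neg hν0, if_neg hν1]
  have h2inf : ∀ c : Cardinal.{u}, ℵ₀ ≤ c → 2 ≤ c := fun c hc =>
    Cardinal.ofNat_lt_aleph0.le.trans hc
  refine ⟨lam', ?_, ⟨c1, ?_⟩, ?_⟩
  · intro ν
    by_cases hν0 : ν = c0
    · subst hν0
      rw [l0]
      exact ⟨h2inf κ hκ, hc0.ge⟩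
    · by_cases hν1 : ν = c1
      · subst hν1
        rw [l1]
        exact ⟨h2inf _ (hσ.trans (Order.le_succ _)), Order.succ_le_of_lt hc1⟩
      · rw [l2 ν hν0 hν1]
        exact ⟨le_rfl, hlam ν⟩
  · rw [l1]
    exact Cardinal.isRegular_succ hσ
  · let G : κ.ord.ToType → κ.ord.ToType → Γ := fun a b =>
      if bl a = bl b then c0 else if φ (bl a) (bl b) = true then c1 else c0
    refine na_two G c0 ?_
    intro ν Y hY hhom
    by_cases hν0 : ν = c0
    · subst hν0
      rw [l0] at hY
      have h3 : ∀ a ∈ Y, ∀ b ∈ Y, bl a < bl b → φ (bl a) (bl b) = false := by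
        intro a ha b hb hab
        have hab' : a < b := by
          by_contra h
          exact absurd (hbl (not_lt.1 h)) (not_le.2 hab)
        have h4 := hhom a ha b hb hab'
        by_contra h5
        have h6 : φ (bl a) (bl b) = true := by simpa using h5
        have h7 : G a b = c1 := by
          show ite _ _ _ = _
          rw [if_neg hab.ne, if_pos h6]
        exact hne (h7.symm.trans h4)
      have h4 : #(bl '' Y) < κ.ord.cof := by
        refine h2 _ ?_
        rintro _ ⟨a, ha, rfl⟩ _ ⟨b, hb, rfl⟩ hab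
        exact h3 a ha b hb hab
      obtain ⟨k, hk⟩ := exists_bound hreg _ h4
      have h5 : Y ⊆ {l | bl l ≤ k} := fun y hy => hk _ ⟨y, hy, rfl⟩
      have h6 := (Cardinal.mk_le_mk_of_subset h5).trans_lt (hsmall k)
      rw [hY] at h6
      exact lt_irrefl _ h6
    · by_cases hν1 : ν = c1
      · subst hν1
        rw [l1] at hY
        have h3 : ∀ a ∈ Y, ∀ b ∈ Y, a < b → bl a ≠ bl b ∧ φ (bl a) (bl b) = true := by
          intro a ha b hb hab
          have h4 := hhom a ha b hb hab
          by_cases h5 : bl a = bl b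
          · have h6 : G a b = c0 := if_pos h5
            exact absurd (h4.symm.trans h6) hν0
          · refine ⟨h5, ?_⟩
            by_contra h6
            have h7 : G a b = c0 := by
              show ite _ _ _ = _
              rw [if_neg h5, if_neg h6]
            exact hν0 (h4.symm.trans h7)
        have h4 : #(bl '' Y) ≤ σ := by
          refine h1 _ ?_
          rintro _ ⟨a, ha, rfl⟩ _ ⟨b, hb, rfl⟩ hab
          have hab' : a < b := by
            by_contra h
            exact absurd (hbl (not_lt.1 h)) (not_le.2 hab)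
          exact (h3 a ha b hb hab').2
        have h5 : #(bl '' Y) = #Y := by
          refine Cardinal.mk_image_eq_of_injOn _ _ ?_
          intro a ha b hb hab
          rcases lt_trichotomy a b with h | h | h
          · exact absurd hab (h3 a ha b hb h).1
          · exact h
          · exact absurd hab.symm (h3 b hb a ha h).1
        rw [h5, hY] at h4
        exact absurd h4 (not_le.2 (Order.lt_succ σ))
      · rw [l2 ν hν0 hν1] at hY
        obtain ⟨a, ha, b, hb, hab⟩ := two_elements hY.ge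
        have h4 := hhom a ha b hb hab
        have h5 : G a b = c0 ∨ G a b = c1 := by
          by_cases h5 : bl a = bl b
          · exact Or.inl (if_pos h5)
          · by_cases h6 : φ (bl a) (bl b) = true
            · right
              show ite _ _ _ = _
              rw [if_neg h5, if_pos h6]
            · left
              show ite _ _ _ = _
              rw [if_neg h5, if_neg h6]
        rcases h5 with h5 | h5
        · exact hν0 (h4.symm.trans h5)
        · exact hν1 (h4.symm.trans h5)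

theorem taskBlock : TaskBlock.{u} := by
  intro κ hκ hs Γ lam c0 c1 hne hlam hc0 hc1
  have hreg : κ.ord.cof.IsRegular := Cardinal.isRegular_cof (Cardinal.isSuccLimit_ord hκ)
  refine block_gen hκ hs hreg.aleph0_le (fun _ _ => true) ?_ ?_ hne hlam hc0 hc1
  · intro Y _
    exact (Cardinal.mk_set_le Y).trans_eq (Cardinal.mk_ord_toType _)
  · intro Y hY
    have h1 : #Y ≤ 1 := by
      rw [Cardinal.le_one_iff_subsingleton]
      refine ⟨fun a b => ?_⟩
      rcases lt_trichotomy a.1 b.1 with h | h | h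
      · exact absurd (hY _ a.2 _ b.2 h) (by simp)
      · exact Subtype.ext h
      · exact absurd (hY _ b.2 _ a.2 h) (by simp)
    exact h1.trans_lt (Cardinal.one_lt_aleph0.trans_le hreg.aleph0_le)

/-- injective choice -/
lemma exists_inj {Θ Γ : Type u} [LinearOrder Θ] [WellFoundedLT Θ] (S : Θ → Set Γ)
    (h : ∀ i, #(Iio i) < #(S i)) (c : Γ) : ∃ π : Θ → Γ, Function.Injective π ∧ ∀ i, π i ∈ S i := by
  classical
  haveI : Inhabited Γ := ⟨c⟩
  obtain ⟨π, hπ⟩ := Pool.Agent.H764R3.ER.exists_rec (I := Θ) (X := Γ)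
    (fun i D x => x ∈ S i ∧ ∀ j, j < i → x ≠ D j)
    (by
      intro i D D' x hDD hx
      refine ⟨hx.1, fun j hj => ?_⟩
      rw [← hDD j hj]
      exact hx.2 j hj)
    (by
      intro i D
      by_contra hcon
      push Not at hcon
      have h1 : S i ⊆ D '' (Iio i) := by
        intro x hx
        obtain ⟨j, hj, hxj⟩ := hcon x hx
        exact ⟨j, hj, hxj.symm⟩
      exact absurd ((Cardinal.mk_le_mk_of_subset h1).trans Cardinal.mk_image_le) (not_le.2 (h i)))
  refine ⟨π, ?_, fun i => (hπ i).1⟩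
  intro i j hij
  rcases lt_trichotomy i j with h' | h' | h'
  · exact absurd hij.symm ((hπ j).2 i h')
  · exact h'
  · exact absurd hij ((hπ i).2 j h')

theorem taskFromMany : TaskFromMany.{u} := by
  classical
  intro κ η hη hs hκ hκη Γ lam hlam hmany
  have hlim := succ_lt_of_singular hη hs
  have h0 : ℵ₀ < η := by
    have h1 : ℵ₀ ≤ η.ord.cof := by
      rw [Ordinal.aleph0_le_cof]
      exact Cardinal.isSuccLimit_ord hη
    exact h1.trans_lt hs
  obtain ⟨d, hd⟩ := exists_normal hη hlim (V := κ.ord.ToType) (fun v =>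
    Order.lt_succ_iff.1 ((Cardinal.mk_Iio_toType_ord_lt v).trans_le hκη))
  choose M hM hMd using hd
  let τ : η.ord.cof.ord.ToType → Cardinal.{u} := fun i => Order.succ (max (M i) ℵ₀)
  have hτ : ∀ i, τ i < η := fun i => hlim _ (max_lt (hM i) h0)
  have hτ0 : ∀ i, ℵ₀ ≤ τ i := fun i => (le_max_right _ _).trans (Order.le_succ _)
  have hne : Nonempty Γ := by
    have h1 := hmany ℵ₀ h0
    have h2 : ℵ₀ ≤ η.ord.cof := by
      rw [Ordinal.aleph0_le_cof]
      exact Cardinal.isSuccLimit_ord hη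
    have h3 := Cardinal.mk_ne_zero_iff.1 (Cardinal.aleph0_pos.trans_le (h2.trans h1)).ne'
    exact ⟨h3.some.1⟩
  obtain ⟨π, hπ, hπS⟩ := exists_inj (fun i => {ν | τ i < lam ν})
    (fun i => (Cardinal.mk_Iio_toType_ord_lt i).trans_le (hmany _ (hτ i))) hne.some
  let lam' : Γ → Cardinal.{u} := fun ν =>
    if h : ∃ i, π i = ν then Order.succ (τ h.choose) else 2
  have l1 : ∀ i, lam' (π i) = Order.succ (τ i) := by
    intro i
    have h : ∃ j, π j = π i := ⟨i, rfl⟩
    have h1 : lam' (π i) = Order.succ (τ h.choose) := dif_pos h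
    rw [h1, hπ h.choose_spec]
  have l2 : ∀ ν, (¬ ∃ i, π i = ν) → lam' ν = 2 := fun ν h => dif_neg h
  have hΘne : Nonempty η.ord.cof.ord.ToType := by
    obtain ⟨l, _⟩ := exists_mk_Iio (μ := η) (ρ := 0) (Cardinal.aleph0_pos.trans_le hη)
    obtain ⟨bl, _⟩ := exists_blocks hη hlim
    exact ⟨bl l⟩
  refine ⟨lam', ?_, ⟨π hΘne.some, ?_⟩, ?_⟩
  · intro ν
    by_cases h : ∃ i, π i = ν
    · obtain ⟨i, rfl⟩ := h
      rw [l1]
      exact ⟨Cardinal.ofNat_lt_aleph0.le.trans ((hτ0 i).trans (Order.le_succ _)),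
        Order.succ_le_of_lt (hπS i)⟩
    · rw [l2 ν h]
      exact ⟨le_rfl, hlam ν⟩
  · rw [l1]
    exact Cardinal.isRegular_succ (hτ0 _)
  · refine na_two (fun a b => π (d a b)) hne.some ?_
    intro ν Y hY hhom
    by_cases h : ∃ i, π i = ν
    · obtain ⟨i, rfl⟩ := h
      rw [l1] at hY
      have h1 : #Y ≤ Order.succ (M i) := by
        refine mk_le_of_Iio Y (M i) fun z hz => le_trans ?_ (hMd i z)
        refine Cardinal.mk_le_mk_of_subset ?_
        intro x hx
        exact ⟨hx.2, (hπ (hhom x hx.1 z hz hx.2)).le⟩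
      rw [hY] at h1
      have h2 : Order.succ (M i) ≤ τ i := Order.succ_le_succ (le_max_left _ _)
      exact absurd (h1.trans h2) (not_le.2 (Order.lt_succ _))
    · rw [l2 ν h] at hY
      obtain ⟨a, ha, b, hb, hab⟩ := two_elements hY.ge
      exact h ⟨_, hhom a ha b hb hab⟩

end Pool.Agent.H55R3.GCH
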