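import Pool.Agent.H55R3.GCH.Basic
import Pool.Agent.H55R3.GCH.Stmts

/-!
# The new construction: `κ⁺ ↛ (κ, (4)_γ)³` for singular `κ` with `cf κ ≤ 2^γ`
-/

set_option autoImplicit false

open Cardinal Set

universe u

namespace Pool.Agent.H55R3.GCH

open Pool.Agent.H330

/-- the combinatorial core -/
theorem new_core {κ : Cardinal.{u}} (hκ : ℵ₀ ≤ κ) (hs : κ.ord.cof < κ)
    {V : Type u} [LinearOrder V] [WellFoundedLT V] (hV : ∀ v : V, #(Iio v) ≤ κ)
    {Γ : Type u} {lam : Γ → Cardinal.{u}} {c0 : Γ} (hΓ : ℵ₀ ≤ #Γ)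
    (hcof : κ.ord.cof ≤ (2 : Cardinal.{u}) ^ #Γ) (hlam : ∀ ν, 2 < lam ν) (hc0 : lam c0 = κ) :
    ∃ g : Finset V → Γ, NA (fun ν => lam ν + 1) 3 g := by
  classical
  have hlim := succ_lt_of_singular hκ hs
  obtain ⟨d, hd⟩ := exists_normal hκ hlim hV
  -- an injection of the blocks into the subsets of `Γ`
  obtain ⟨ι⟩ : Nonempty (κ.ord.cof.ord.ToType ↪ (Γ → Bool)) := by
    rw [← Cardinal.le_def, Cardinal.mk_ord_toType]
    simpa using hcof
  have hdiff : ∀ i j : κ.ord.cof.ord.ToType, ∃ c : Γ, i ≠ j → ι i c ≠ ι j c := by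
    intro i j
    by_cases h : i = j
    · exact ⟨c0, fun h' => absurd h h'⟩
    · have h1 : ι i ≠ ι j := fun h' => h (ι.injective h')
      obtain ⟨c, hc⟩ := Function.ne_iff.1 h1
      exact ⟨c, fun _ => hc⟩
  choose Δ hΔ using hdiff
  -- the triangle-freeness
  have htri : ∀ i j k : κ.ord.cof.ord.ToType, i ≠ j → j ≠ k → i ≠ k → ∀ c, Δ i j = c → Δ j k = c → Δ i k = c → False := by
    intro i j k hij hjk hik c h1 h2 h3
    have a1 := hΔ i j hij
    have a2 := hΔ j k hjk
    have a3 := hΔ i k hik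
    rw [h1] at a1
    rw [h2] at a2
    rw [h3] at a3
    cases hi : ι i c <;> cases hj : ι j c <;> cases hk : ι k c <;> simp_all
  -- an injection of the typed colours
  obtain ⟨π⟩ : Nonempty ((Bool × Γ) ↪ {c : Γ // c ≠ c0}) := by
    rw [← Cardinal.le_def]
    haveI : Infinite Γ := Cardinal.infinite_iff.2 hΓ
    have h1 : #{c : Γ // c ≠ c0} = #Γ := by
      have := Cardinal.mk_compl_of_infinite ({c0} : Set Γ) (by
        rw [Cardinal.mk_singleton]
        exact Cardinal.one_lt_aleph0.trans_le hΓ)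
      exact this
    have h2 : #(Bool × Γ) = #Γ := by
      rw [Cardinal.mk_prod, Cardinal.mk_bool]
      rw [Cardinal.lift_ofNat, Cardinal.lift_uzero]
      exact Cardinal.mul_eq_right hΓ (Cardinal.ofNat_lt_aleph0.le.trans hΓ) two_ne_zero
    rw [h1]
    exact h2.le
  let G : V → V → V → Γ := fun a b e =>
    if d a e ≠ d b e then (π (false, Δ (d a e) (d b e))).1
    else if d a b ≠ d a e then (π (true, Δ (d a b) (d a e))).1 else c0
  have hG0 : ∀ a b e, G a b e = c0 → d a e = d b e ∧ d a b = d a e := by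
    intro a b e h
    by_cases h1 : d a e ≠ d b e
    · have h2 : G a b e = (π (false, Δ (d a e) (d b e))).1 := if_pos h1
      exact absurd (h2.symm.trans h) (π (false, Δ (d a e) (d b e))).2
    · have h2 : G a b e = if d a b ≠ d a e then (π (true, Δ (d a b) (d a e))).1 else c0 := if_neg h1
      by_cases h3 : d a b ≠ d a e
      · rw [if_pos h3] at h2
        exact absurd (h2.symm.trans h) (π (true, Δ (d a b) (d a e))).2
      · exact ⟨not_not.1 h1, not_not.1 h3⟩
  have hG1 : ∀ a b e ν, ν ≠ c0 → G a b e = ν →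
      (d a e ≠ d b e ∧ (π (false, Δ (d a e) (d b e))).1 = ν) ∨
      (d a e = d b e ∧ d a b ≠ d a e ∧ (π (true, Δ (d a b) (d a e))).1 = ν) := by
    intro a b e ν hν h
    by_cases h1 : d a e ≠ d b e
    · have h2 : G a b e = (π (false, Δ (d a e) (d b e))).1 := if_pos h1
      exact Or.inl ⟨h1, h2.symm.trans h⟩
    · have h2 : G a b e = if d a b ≠ d a e then (π (true, Δ (d a b) (d a e))).1 else c0 := if_neg h1
      by_cases h3 : d a b ≠ d a e
      · rw [if_pos h3] at h2
        exact Or.inr ⟨not_not.1 h1, h3, h2.symm.trans h⟩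
      · rw [if_neg h3] at h2
        exact absurd (h.symm.trans h2) hν
  have hinj : ∀ p q, (π p).1 = (π q).1 → p = q := fun p q h => π.injective (Subtype.ext h)
  refine na_three G c0 ?_
  intro ν Y hY hhom
  have h4 : (4 : Cardinal.{u}) ≤ #Y := by
    rw [hY]
    have h3 : (3 : Cardinal.{u}) ≤ lam ν := by
      have h := Order.succ_le_of_lt (hlam ν)
      have h' : Order.succ (2 : Cardinal.{u}) = 3 := by
        have := Cardinal.succ_natCast.{u} 2
        push_cast at this
        rw [this]; norm_num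
      rwa [h'] at h
    calc (4 : Cardinal.{u}) = 3 + 1 := by norm_num
      _ ≤ lam ν + 1 := by gcongr
  obtain ⟨a, ha, b, hb, c, hc, e, he, hab, hbc, hce⟩ := exists_four h4
  by_cases hν : ν = c0
  · subst hν
    have hYκ : #Y = κ := by
      rw [hY, hc0]
      exact Cardinal.add_one_eq hκ
    have hne : Y.Nonempty := ⟨a, ha⟩
    set y0 := wellFounded_lt.min Y hne with hy0
    have hy0Y : y0 ∈ Y := wellFounded_lt.min_mem Y hne
    have hmin : ∀ z ∈ Y, y0 ≤ z := fun z hz => not_lt.1 (wellFounded_lt.not_lt_min Y hz)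
    have h0b : y0 < b := (hmin a ha).trans_lt hab
    have hk : ∀ z ∈ Y, y0 < z → d y0 z = d y0 b := by
      intro z hz h0z
      rcases lt_trichotomy z b with h | h | h
      · exact (hG0 _ _ _ (hhom y0 hy0Y z hz b hb h0z h)).2
      · rw [h]
      · exact (hG0 _ _ _ (hhom y0 hy0Y b hb z hz h0b h)).2.symm
    have hall : ∀ x ∈ Y, ∀ z ∈ Y, x < z → d x z = d y0 b := by
      intro x hx z hz hxz
      rcases (hmin x hx).lt_or_eq with h | h
      · rw [← (hG0 _ _ _ (hhom y0 hy0Y x hx z hz h hxz)).1]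
        exact hk z hz (h.trans hxz)
      · rw [← h]
        exact hk z hz (h ▸ hxz)
    obtain ⟨M, hM, hMd⟩ := hd (d y0 b)
    have h1 : #Y ≤ Order.succ M := by
      refine mk_le_of_Iio Y M fun z hz => le_trans ?_ (hMd z)
      refine Cardinal.mk_le_mk_of_subset ?_
      intro x hx
      exact ⟨hx.2, (hall x hx.1 z hz hx.2).le⟩
    rw [hYκ] at h1
    exact absurd h1 (not_le.2 (hlim M hM))
  · have hac := hab.trans hbc
    have hbe := hbc.trans hce
    have h012 := hG1 _ _ _ _ hν (hhom a ha b hb c hc hab hbc)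
    have h013 := hG1 _ _ _ _ hν (hhom a ha b hb e he hab hbe)
    have h023 := hG1 _ _ _ _ hν (hhom a ha c hc e he hac hce)
    have h123 := hG1 _ _ _ _ hν (hhom b hb c hc e he hbc hce)
    rcases h013 with ⟨p1, p2⟩ | ⟨p1, p2, p3⟩
    · rcases h023 with ⟨q1, q2⟩ | ⟨q1, q2, q3⟩
      · rcases h123 with ⟨r1, r2⟩ | ⟨r1, r2, r3⟩
        · have e1 := congrArg Prod.snd (hinj _ _ (r2.trans p2.symm))
          have e2 := congrArg Prod.snd (hinj _ _ (q2.trans p2.symm))
          exact htri (d a e) (d b e) (d c e) p1 r1 q1 _ rfl e1 e2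
        · exact absurd (congrArg Prod.fst (hinj _ _ (r3.trans p2.symm))) (by simp)
      · exact absurd (congrArg Prod.fst (hinj _ _ (q3.trans p2.symm))) (by simp)
    · rcases h023 with ⟨q1, q2⟩ | ⟨q1, q2, q3⟩
      · exact absurd (congrArg Prod.fst (hinj _ _ (q2.trans p3.symm))) (by simp)
      · rcases h012 with ⟨r1, r2⟩ | ⟨r1, r2, r3⟩
        · exact absurd (congrArg Prod.fst (hinj _ _ (r2.trans p3.symm))) (by simp)
        · have e1 := congrArg Prod.snd (hinj _ _ (r3.trans p3.symm))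
          have e2 := congrArg Prod.snd (hinj _ _ (q3.trans p3.symm))
          exact htri (d a b) (d a c) (d a e) r2 q2 p2 _ e1 e2 rfl

theorem taskNew : TaskNew.{u} := by
  intro κ hκ hs hG Γ lam c0 hΓ hcof hlam hc0
  refine new_core hκ hs ?_ hΓ hcof hlam hc0
  intro v
  have h := Cardinal.mk_Iio_toType_ord_lt v
  exact Order.lt_succ_iff.1 (h.trans_eq hG)

end Pool.Agent.H55R3.GCH
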