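import Mathlib
import Pool.Agent.H55R3.GCH.Stmts

set_option autoImplicit false

open Cardinal Set

universe u

namespace Pool.Agent.H55R3.GCH

lemma pow_le_of_lt_aux (hG : ∀ c : Cardinal.{u}, ℵ₀ ≤ c → (2 : Cardinal.{u}) ^ c = Order.succ c)
    (ρ n l : Cardinal.{u}) (hρ : ℵ₀ ≤ ρ) (hn : n < ρ) (hl : l < ρ) : l ^ n ≤ ρ := by
  rcases hρ.lt_or_eq with h | h
  · set m := max l (max n ℵ₀) with hm
    have hmρ : m < ρ := max_lt hl (max_lt hn h)
    have hm0 : ℵ₀ ≤ m := (le_max_right n ℵ₀).trans (le_max_right l _)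
    have h1 : l ^ n ≤ m ^ m := by
      have hmne : m ≠ 0 := fun h0 => by
        rw [h0] at hm0
        exact absurd hm0 (not_le.2 Cardinal.aleph0_pos)
      exact (Cardinal.power_le_power_right (le_max_left l _)).trans
        (Cardinal.power_le_power_left hmne ((le_max_left n ℵ₀).trans (le_max_right l _)))
    rw [Cardinal.power_self_eq hm0, hG m hm0] at h1
    exact h1.trans (Order.succ_le_of_lt hmρ)
  · rw [← h] at hn hl ⊢
    exact (Cardinal.power_lt_aleph0 hl hn).le

theorem taskArith : TaskArith := by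
  intro hG ρ n hρ hn
  have hnρ : n < ρ := hn.trans_le (Ordinal.cof_ord_le ρ)
  have hβ : #(ρ.ord.ToType) = ρ := by simp
  have hα : #(n.out) = n := Cardinal.mk_out n
  have hb : ∀ f : n.out → ρ.ord.ToType, ∃ x : ρ.ord.ToType, ∀ a, f a < x := by
    intro f
    by_contra hcon
    push Not at hcon
    have h1 : IsCofinal (range f) := by
      intro x
      obtain ⟨a, ha⟩ := hcon x
      exact ⟨f a, mem_range_self a, ha⟩
    have h2 := Order.cof_le h1
    rw [Ordinal.cof_toType] at h2
    have h3 : #(range f) ≤ #(n.out) := Cardinal.mk_range_le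
    rw [hα] at h3
    exact absurd (h2.trans h3) (not_le.2 hn)
  choose X hX using hb
  let F : (n.out → ρ.ord.ToType) → Σ x : ρ.ord.ToType, (n.out → Iio x) :=
    fun f => ⟨X f, fun a => ⟨f a, hX f a⟩⟩
  have hF : Function.Injective F := by
    have hG' : Function.LeftInverse
        (fun p : Σ x : ρ.ord.ToType, (n.out → Iio x) => fun a => ((p.2 a : Iio p.1) : ρ.ord.ToType)) F :=
      fun f => rfl
    exact hG'.injective
  calc ρ ^ n = #(n.out → ρ.ord.ToType) := by
        rw [← Cardinal.power_def, hβ, hα]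
    _ ≤ #(Σ x : ρ.ord.ToType, (n.out → Iio x)) := Cardinal.mk_le_of_injective hF
    _ = Cardinal.sum (fun x : ρ.ord.ToType => #(n.out → Iio x)) := Cardinal.mk_sigma _
    _ ≤ Cardinal.sum (fun _ : ρ.ord.ToType => ρ) := by
        apply Cardinal.sum_le_sum
        intro x
        rw [← Cardinal.power_def, hα]
        exact pow_le_of_lt_aux hG ρ n _ hρ hnρ (Cardinal.mk_Iio_toType_ord_lt x)
    _ = ρ * ρ := by
        rw [Cardinal.sum_const', hβ]
    _ = ρ := Cardinal.mul_eq_self hρ

end Pool.Agent.H55R3.GCH
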