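import Pool.Agent.H55R3.GCH.Stmts
import Pool.Agent.H330.Cof
import Pool.Agent.H764R3.ER

/-! Task Canon of the project H55GCH (helper683). -/

set_option autoImplicit false

open Cardinal Set

universe u

namespace Pool.Agent.H55R3.GCH

namespace CanonAux

theorem pig {V : Type u} {P : Cardinal.{u}} (hP : ℵ₀ ≤ P) (A : Set V)
    (hA : Order.succ ((2 : Cardinal.{u}) ^ P) ≤ #A)
    (W : Type u) (hW : #W ≤ P) (R : V → W → Prop) :
    ∃ S ⊆ A, Order.succ ((2 : Cardinal.{u}) ^ P) ≤ #S ∧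
      ∃ φ : W → Prop, ∀ b ∈ S, ∀ w, (R b w ↔ φ w) := by
  have hreg : (Order.succ ((2 : Cardinal.{u}) ^ P)).IsRegular :=
    Cardinal.isRegular_succ (hP.trans (Cardinal.cantor P).le)
  have hZ : #(W → Prop) < Order.succ ((2 : Cardinal.{u}) ^ P) := by
    rw [Order.lt_succ_iff]
    have : #(W → Prop) = (2 : Cardinal.{u}) ^ #W := by simp
    rw [this]
    exact Cardinal.power_le_power_left two_ne_zero hW
  obtain ⟨z, hz⟩ := Pool.Agent.H764R3.ER.ph hreg A hA (fun b => (R b : W → Prop)) hZ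
  refine ⟨{x | x ∈ A ∧ R x = z}, fun x hx => hx.1, hz, z, ?_⟩
  rintro b ⟨_, hb⟩ w
  rw [← hb]

theorem exists_P (κ : Cardinal.{u}) (hκ : ℵ₀ ≤ κ) (hcof : κ.ord.cof < κ)
    (hstrong : ∀ ρ < κ, (2 : Cardinal.{u}) ^ ρ < κ)
    (B : κ.ord.cof.ord.ToType → Cardinal.{u}) (hB : ∀ i, B i < κ) :
    ∃ P : κ.ord.cof.ord.ToType → Cardinal.{u}, (∀ i, P i < κ) ∧ (∀ i, B i ≤ P i) ∧
      ∀ i, Cardinal.sum (fun j : Iio i => Order.succ ((2 : Cardinal.{u}) ^ P j)) ≤ P i := by
  let step : (i : κ.ord.cof.ord.ToType) → ((j : κ.ord.cof.ord.ToType) → j < i → Cardinal.{u}) →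
      Cardinal.{u} := fun i D =>
    B i + Cardinal.sum (fun j : Iio i => Order.succ ((2 : Cardinal.{u}) ^ D j j.2))
  let P : κ.ord.cof.ord.ToType → Cardinal.{u} :=
    WellFounded.fix (wellFounded_lt (α := κ.ord.cof.ord.ToType)) step
  have hP : ∀ i, P i = B i +
      Cardinal.sum (fun j : Iio i => Order.succ ((2 : Cardinal.{u}) ^ P j)) := by
    intro i
    exact WellFounded.fix_eq _ _ _
  refine ⟨P, ?_, fun i => ?_, fun i => ?_⟩
  · intro i
    induction i using WellFoundedLT.induction with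
    | ind i ih =>
      rw [hP]
      refine Cardinal.add_lt_of_lt hκ (hB i) ?_
      refine (Cardinal.sum_le_mk_mul_iSup _).trans_lt ?_
      have h1 : #(Iio i) < κ.ord.cof := Cardinal.mk_Iio_toType_ord_lt i
      refine Cardinal.mul_lt_of_lt hκ (h1.trans hcof) ?_
      refine Cardinal.iSup_lt_of_lt_cof_ord h1 fun j => ?_
      have h2 : (2 : Cardinal.{u}) ^ P j < κ := hstrong _ (ih j j.2)
      exact lt_of_le_of_lt (Order.succ_le_of_lt (Cardinal.cantor _)) (hstrong _ h2)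
  · rw [hP]
    exact self_le_add_right _ _
  · rw [hP i]
    exact self_le_add_left _ _

end CanonAux

open CanonAux Pool.Agent.H330 in
theorem taskCanon : TaskCanon.{u} := by
  intro κ hκ hcof hstrong Γ hΓ f c0 τ hτ h1 h2
  classical
  obtain ⟨m, hm1, hm2, hm3⟩ := cofmap κ
  have hμ0 : ℵ₀ ≤ κ.ord.cof := Ordinal.aleph0_le_cof.2 (Cardinal.isSuccLimit_ord hκ)
  have hκ0 : ℵ₀ < κ := hμ0.trans_lt hcof
  let B : κ.ord.cof.ord.ToType → Cardinal.{u} := fun i => m i + τ + #Γ + κ.ord.cof + ℵ₀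
  have hB : ∀ i, B i < κ := fun i =>
    Cardinal.add_lt_of_lt hκ (Cardinal.add_lt_of_lt hκ (Cardinal.add_lt_of_lt hκ
      (Cardinal.add_lt_of_lt hκ (hm2 i) hτ) hΓ) hcof) hκ0
  obtain ⟨P, hP1, hP2, hP3⟩ := exists_P κ hκ hcof hstrong B hB
  have hPm : ∀ i, m i ≤ P i := fun i => le_trans (by
    simp only [B, add_assoc]; exact self_le_add_right _ _) (hP2 i)
  have hPτ : ∀ i, τ ≤ P i := fun i => le_trans (by
    have : B i = τ + (m i + #Γ + κ.ord.cof + ℵ₀) := by simp only [B]; ring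
    rw [this]; exact self_le_add_right _ _) (hP2 i)
  have hPΓ : ∀ i, #Γ ≤ P i := fun i => le_trans (by
    have : B i = #Γ + (m i + τ + κ.ord.cof + ℵ₀) := by simp only [B]; ring
    rw [this]; exact self_le_add_right _ _) (hP2 i)
  have hPμ : ∀ i, κ.ord.cof ≤ P i := fun i => le_trans (by
    have : B i = κ.ord.cof + (m i + τ + #Γ + ℵ₀) := by simp only [B]; ring
    rw [this]; exact self_le_add_right _ _) (hP2 i)
  have hP0 : ∀ i, ℵ₀ ≤ P i := fun i => le_trans (by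
    simp only [B]; exact self_le_add_left _ _) (hP2 i)
  -- blocks
  have hK : ∀ i, Order.succ ((2 : Cardinal.{u}) ^ P i) < κ := fun i =>
    lt_of_le_of_lt (Order.succ_le_of_lt (Cardinal.cantor _)) (hstrong _ (hstrong _ (hP1 i)))
  have hVκ : #(κ.ord.ToType) = κ := Cardinal.mk_ord_toType κ
  have hIμ : #(κ.ord.cof.ord.ToType) = κ.ord.cof := Cardinal.mk_ord_toType _
  have he : #(Σ i : κ.ord.cof.ord.ToType, (Order.succ ((2 : Cardinal.{u}) ^ P i)).out) ≤
      #(κ.ord.ToType) := by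
    rw [Cardinal.mk_sigma, hVκ]
    simp only [Cardinal.mk_out]
    refine (Cardinal.sum_le_sum _ (fun _ => κ) fun i => (hK i).le).trans ?_
    rw [Cardinal.sum_const', hIμ]
    exact (Cardinal.mul_le_max _ _).trans (by simp [hcof.le, hκ])
  obtain ⟨e⟩ := Cardinal.le_def _ _ |>.1 he
  let A : κ.ord.cof.ord.ToType → Set κ.ord.ToType := fun i =>
    Set.range (fun a : (Order.succ ((2 : Cardinal.{u}) ^ P i)).out => e ⟨i, a⟩)
  have hAc : ∀ i, #(A i) = Order.succ ((2 : Cardinal.{u}) ^ P i) := by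
    intro i
    simp only [A]
    rw [Cardinal.mk_range_eq, Cardinal.mk_out]
    intro a b hab
    have := e.injective hab
    simpa using this
  have hAd : ∀ i j v, v ∈ A i → v ∈ A j → i = j := by
    rintro i j v ⟨a, rfl⟩ ⟨b, hb⟩
    have := e.injective hb
    exact (congrArg Sigma.fst this).symm
  -- step 1
  have s1 : ∀ j, ∃ S ⊆ A j, Order.succ ((2 : Cardinal.{u}) ^ P j) ≤ #S ∧
      ∃ φ : κ.ord.ToType → Prop, ∀ b ∈ S, ∀ i < j, ∀ a ∈ A i, (f {a, b} = c0 ↔ φ a) := by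
    intro j
    have hW : #(⋃ i : Iio j, A i) ≤ P j := by
      refine Cardinal.mk_iUnion_le_sum_mk.trans ?_
      simp only [hAc]
      exact hP3 j
    obtain ⟨S, hS, hSc, φ, hφ⟩ := pig (hP0 j) (A j) (hAc j).ge (⋃ i : Iio j, A i) hW
      (fun b w => f {(w : κ.ord.ToType), b} = c0)
    refine ⟨S, hS, hSc, fun v => ∃ h : v ∈ ⋃ i : Iio j, A i, φ ⟨v, h⟩, ?_⟩
    intro b hb i hi a ha
    have hmem : a ∈ ⋃ i : Iio j, A i := Set.mem_iUnion.2 ⟨⟨i, hi⟩, ha⟩
    rw [hφ b hb ⟨a, hmem⟩]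
    exact ⟨fun h => ⟨hmem, h⟩, fun ⟨_, h⟩ => h⟩
  choose S1 hS1A hS1c φ hφ using s1
  -- step 2
  have s2 : ∀ i, ∃ S ⊆ S1 i, Order.succ ((2 : Cardinal.{u}) ^ P i) ≤ #S ∧
      ∃ ψ : κ.ord.cof.ord.ToType → Prop, ∀ a ∈ S, ∀ j, (φ j a ↔ ψ j) := by
    intro i
    exact pig (hP0 i) (S1 i) (hS1c i) κ.ord.cof.ord.ToType (by rw [hIμ]; exact hPμ i)
      (fun a j => φ j a)
  choose S2 hS2S hS2c ψ hψ using s2
  -- step 3
  have s3 : ∀ i, ∃ H ⊆ S2 i, Order.succ (P i) ≤ #H ∧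
      ∀ a ∈ H, ∀ b ∈ H, a < b → f {a, b} = c0 := by
    intro i
    obtain ⟨H, hH, z, hz⟩ := Pool.Agent.H764R3.ER.erdos_rado (U := S2 i) (hP0 i)
      (Order.succ_le_iff.1 (hS2c i)) (hPΓ i) (fun a b => f {(a : κ.ord.ToType), (b : κ.ord.ToType)})
    have hc : #(Subtype.val '' H : Set κ.ord.ToType) = #H :=
      Cardinal.mk_image_eq Subtype.val_injective
    refine ⟨Subtype.val '' H, ?_, ?_, ?_⟩
    · rintro _ ⟨a, _, rfl⟩
      exact a.2
    · rw [hc]; exact hH
    · by_cases hz0 : z = c0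
      · rintro _ ⟨a, ha, rfl⟩ _ ⟨b, hb, rfl⟩ hab
        rw [← hz0]
        exact hz a ha b hb hab
      · exfalso
        obtain ⟨a, ⟨a', ha', rfl⟩, b, ⟨b', hb', rfl⟩, hab, hne⟩ := h1 z hz0 (Subtype.val '' H) (by
          rw [hc]
          exact ((hPτ i).trans (Order.le_succ _)).trans hH)
        exact hne (hz a' ha' b' hb' hab)
  choose H hHS hHc hH0 using s3
  have hne : ∀ i, (H i).Nonempty := by
    intro i
    rw [← Set.nonempty_coe_sort, ← Cardinal.mk_ne_zero_iff]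
    intro h0
    have := hHc i
    rw [h0] at this
    exact absurd (lt_of_lt_of_le (Cardinal.succ_pos _) this) (lt_irrefl _)
  choose x hx using hne
  have hHA : ∀ i, H i ⊆ A i := fun i => (hHS i).trans ((hS2S i).trans (hS1A i))
  have cross : ∀ i j, i < j → ∀ a ∈ H i, ∀ b ∈ H j, (f {a, b} = c0 ↔ ψ i j) := by
    intro i j hij a ha b hb
    rw [hφ j b (hS2S j (hHS j hb)) i hij a (hHA i ha)]
    exact hψ i a (hHS i ha) j
  refine ⟨x, ?_, ?_⟩
  · intro i j hij
    exact hAd i j (x i) (hHA i (hx i)) (by rw [hij]; exact hHA j (hx j))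
  · intro Z hZ
    by_contra hcon
    push Not at hcon
    have hYc : #(⋃ i ∈ Z, H i : Set κ.ord.ToType) = κ := by
      apply le_antisymm
      · exact (Cardinal.mk_set_le _).trans hVκ.le
      · by_contra hlt
        rw [not_le] at hlt
        obtain ⟨k, hk⟩ := hm3 _ hlt
        obtain ⟨i, hiZ, hki⟩ : ∃ i ∈ Z, k ≤ i := by
          by_contra hno
          push Not at hno
          have h5 : Z ⊆ Iio k := fun i hi => hno i hi
          have h6 := (Cardinal.mk_le_mk_of_subset h5).trans_lt (Cardinal.mk_Iio_toType_ord_lt k)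
          rw [hZ] at h6
          exact lt_irrefl _ h6
        have h7 : #(H i) ≤ #(⋃ i ∈ Z, H i : Set κ.ord.ToType) :=
          Cardinal.mk_le_mk_of_subset (Set.subset_biUnion_of_mem hiZ)
        have h8 : P i < #(H i) := Order.succ_le_iff.1 (hHc i)
        exact absurd (((h8.trans_le h7).trans_le hk).trans_le ((hm1 hki).trans (hPm i)))
          (lt_irrefl _)
    obtain ⟨a, ha, b, hb, hab, hne⟩ := h2 _ hYc
    simp only [Set.mem_iUnion, exists_prop] at ha hb
    obtain ⟨i, hi, hai⟩ := ha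
    obtain ⟨j, hj, hbj⟩ := hb
    rcases lt_trichotomy i j with hij | hij | hij
    · apply hne
      rw [cross i j hij a hai b hbj, ← cross i j hij (x i) (hx i) (x j) (hx j)]
      exact hcon i hi j hj hij
    · subst hij
      exact hne (hH0 i a hai b hbj hab)
    · apply hne
      rw [Finset.pair_comm, cross j i hij b hbj a hai,
        ← cross j i hij (x j) (hx j) (x i) (hx i)]
      exact hcon j hj i hi hij

end Pool.Agent.H55R3.GCH
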