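import Pool.Agent.H55R3.GCH.Stmts
import Pool.Agent.H650R2.SqTools

/-!
# Task ER: the unbalanced Erdős–Rado theorem for pairs on a regular cardinal
-/

set_option autoImplicit false

open Cardinal Set Ordinal

universe u

namespace Pool.Agent.H55R3.GCH

open Pool.Agent.H650R2.Sq

/-- few small subsets -/
theorem few_small {θ τ : Cardinal.{u}} (hθ : θ.IsRegular) (hτ : τ.IsRegular) (hτθ : τ < θ)
    (hpow : ∀ l < θ, ∀ n < τ, l ^ n < θ) {B : Type u} (hB : #B < θ) : #{A : Set B // #A < τ} < θ := by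
  classical
  let TT : Type u := τ.ord.ToType
  have hTT : #TT = τ := by simp [TT]
  obtain ⟨h1, h2, h3, h4⟩ := reg_facts hτ
  have hlt : ∀ ι : TT, #(Iio ι) < τ := fun ι => by
    have := mk_Iio_lt ι h2
    rwa [show #τ.ord.ToType = τ from hTT] at this
  have hcov : ∀ A : Set B, #A < τ → ∃ ι : TT, #A ≤ #(Iio ι) := by
    intro A hA
    let o : Set.Iio τ.ord := ⟨(#A).ord, ord_lt_ord.2 hA⟩
    refine ⟨Ordinal.ToType.mk o, ?_⟩
    have h5 : #(Iio (Ordinal.ToType.mk o)) = (typein (α := τ.ord.ToType) (· < ·) (Ordinal.ToType.mk o)).card :=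
      card_typein (r := ((· < ·) : τ.ord.ToType → τ.ord.ToType → Prop)) (Ordinal.ToType.mk o)
    have h6 : typein (α := τ.ord.ToType) (· < ·) (Ordinal.ToType.mk o) = (#A).ord := by
      unfold Ordinal.ToType.mk
      exact typein_enum _ _
    rw [h5, h6, card_ord]
  have hmax : max #B ℵ₀ < θ := max_lt hB (hτ.aleph0_le.trans_lt hτθ)
  have hsub : (univ : Set {A : Set B // #A < τ}) ⊆ ⋃ ι : TT, {A : {A : Set B // #A < τ} | #A.1 ≤ #(Iio ι)} := by
    intro A _
    rw [mem_iUnion]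
    exact hcov A.1 A.2
  rw [← mk_univ]
  refine ((mk_le_mk_of_subset hsub).trans mk_iUnion_le_sum_mk).trans_lt ?_
  refine Cardinal.sum_lt_of_isRegular hθ (by rw [hTT]; exact hτθ) fun ι => ?_
  have h7 : #{A : {A : Set B // #A < τ} | #A.1 ≤ #(Iio ι)} ≤ #{t : Set B // #t ≤ #(Iio ι)} := by
    refine mk_le_of_injective (f := fun A => ⟨A.1.1, A.2⟩) ?_
    rintro ⟨⟨A, hA⟩, hA'⟩ ⟨⟨A2, hA2⟩, hA2'⟩ h
    simp only [Subtype.mk.injEq] at h
    subst h
    rfl
  exact (h7.trans (mk_bounded_set_le B _)).trans_lt (hpow _ hmax _ (hlt ι))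

theorem taskER : TaskER.{u} := by
  intro θ τ hθ hτ hτθ Γ hΓ hpow φ c0 hno
  classical
  let T : Type u := θ.ord.ToType
  have hT : #T = θ := by simp [T]
  obtain ⟨hT1, hT2, hT3, hT4⟩ := reg_facts hθ
  have hZ : ∀ X : Set T, ∃ Z ⊆ X, (∀ a ∈ Z, ∀ b ∈ Z, a < b → φ a b = c0) ∧
      ∀ x ∈ X, (∀ z ∈ Z, z < x → φ z x = c0) → (∀ z ∈ Z, x < z → φ x z = c0) → x ∈ Z := by
    intro X
    obtain ⟨Z, hZm⟩ := zorn_subset {Z : Set T | Z ⊆ X ∧ ∀ a ∈ Z, ∀ b ∈ Z, a < b → φ a b = c0} (by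
      intro c hc hchain
      refine ⟨⋃₀ c, ⟨sUnion_subset fun s hs => (hc hs).1, ?_⟩, fun s hs => subset_sUnion_of_mem hs⟩
      rintro a ⟨s, hs, ha⟩ b ⟨t, ht, hb⟩ hab
      rcases hchain.total hs ht with h | h
      · exact (hc ht).2 a (h ha) b hb hab
      · exact (hc hs).2 a ha b (h hb) hab)
    refine ⟨Z, hZm.prop.1, hZm.prop.2, fun x hx h1 h2 => ?_⟩
    have h3 : insert x Z ∈ {Z : Set T | Z ⊆ X ∧ ∀ a ∈ Z, ∀ b ∈ Z, a < b → φ a b = c0} := by
      refine ⟨insert_subset hx hZm.prop.1, ?_⟩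
      intro a ha b hb hab
      rcases mem_insert_iff.1 ha with ea | ha1
      · rcases mem_insert_iff.1 hb with eb | hb1
        · rw [ea, eb] at hab
          exact absurd hab (lt_irrefl _)
        · rw [ea] at hab ⊢
          exact h2 b hb1 hab
      · rcases mem_insert_iff.1 hb with eb | hb1
        · rw [eb] at hab ⊢
          exact h1 a ha1 hab
        · exact hZm.prop.2 a ha1 b hb1 hab
    exact hZm.le_of_ge h3 (subset_insert x Z) (mem_insert x Z)
  choose Zf hZ1 hZ2 hZ3 using hZ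
  have hZc : ∀ X, #(Zf X) < θ := by
    intro X
    refine lt_of_le_of_ne ((mk_set_le _).trans hT.le) fun h => ?_
    obtain ⟨a, ha, b, hb, hab, hne⟩ := hno _ h
    exact hne (hZ2 X a ha b hb hab)
  have hFex : ∀ y : T, ∃ b : T, ∀ (A : {A : Set (Iio y) // #A < τ}) (q : A.1 → Γ),
      ∀ z ∈ Zf {x | ∀ a : A.1, a.1.1 < x ∧ φ a.1.1 x = q a}, z < b := by
    intro y
    have hy : #(Iio y) < θ := by
      have := mk_Iio_lt y hT2
      rwa [show #θ.ord.ToType = θ from hT] at this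
    have hidx : #(Σ A : {A : Set (Iio y) // #A < τ}, (A.1 → Γ)) < θ := by
      rw [mk_sigma]
      refine Cardinal.sum_lt_of_isRegular hθ (few_small hθ hτ hτθ hpow hy) fun A => ?_
      rw [← Cardinal.power_def]
      exact hpow _ (hΓ.trans hτθ) _ A.2
    have hU : #(⋃ p : (Σ A : {A : Set (Iio y) // #A < τ}, (A.1 → Γ)),
        Zf {x | ∀ a : p.1.1, a.1.1 < x ∧ φ a.1.1 x = p.2 a} : Set T) < #T := by
      rw [hT]
      refine mk_iUnion_le_sum_mk.trans_lt ?_
      exact Cardinal.sum_lt_of_isRegular hθ hidx fun p => hZc _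
    obtain ⟨b, hb⟩ := hT4 _ hU
    exact ⟨b, fun A q z hz => hb z (mem_iUnion.2 ⟨⟨A, q⟩, hz⟩)⟩
  choose F hF using hFex
  have hne : Nonempty T := by
    rw [← mk_ne_zero_iff, hT]
    exact (Cardinal.aleph0_pos.trans_le hθ.aleph0_le).ne'
  obtain ⟨σ, -, hσ⟩ := exists_closure (I := T) hT4 hτ (by rw [hT]; exact hτθ) F hne.some
  have hclosed : ∀ A : Set T, #A < τ → (∀ a ∈ A, a < σ) → ∀ q : T → Γ,
      ∀ z ∈ Zf {x | ∀ a ∈ A, a < x ∧ φ a x = q a}, z < σ := by
    intro A hA hAσ q z hz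
    obtain ⟨y, hy, hAy, hFy⟩ := hσ A hA hAσ
    have hA' : #(Subtype.val ⁻¹' A : Set (Iio y)) < τ :=
      (mk_preimage_of_injective _ A Subtype.val_injective).trans_lt hA
    have hset : {x | ∀ a : (Subtype.val ⁻¹' A : Set (Iio y)), a.1.1 < x ∧ φ a.1.1 x = q a.1.1} =
        {x | ∀ a ∈ A, a < x ∧ φ a x = q a} := by
      ext x
      simp only [mem_setOf_eq]
      constructor
      · intro h a ha
        exact h ⟨⟨a, hAy a ha⟩, ha⟩
      · intro h a
        exact h a.1.1 a.2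
    rw [← hset] at hz
    exact (hF y ⟨_, hA'⟩ (fun a => q a.1.1) z hz).trans hFy
  obtain ⟨A, hAm⟩ := zorn_subset {A : Set T | (∀ a ∈ A, a < σ ∧ φ a σ ≠ c0) ∧ ∀ a ∈ A, ∀ b ∈ A, a < b → φ a b = φ a σ} (by
      intro c hc hchain
      refine ⟨⋃₀ c, ⟨?_, ?_⟩, fun s hs => subset_sUnion_of_mem hs⟩
      · rintro a ⟨s, hs, ha⟩
        exact (hc hs).1 a ha
      · rintro a ⟨s, hs, ha⟩ b ⟨t, ht, hb⟩ hab
        rcases hchain.total hs ht with h | h
        · exact (hc ht).2 a (h ha) b hb hab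
        · exact (hc hs).2 a ha b (h hb) hab)
  have hAc : τ ≤ #A := by
    by_contra hlt
    push Not at hlt
    have hz := hclosed A hlt (fun a ha => (hAm.prop.1 a ha).1) (fun a => φ a σ)
    set X : Set T := {x | ∀ a ∈ A, a < x ∧ φ a x = φ a σ} with hX
    have hσX : σ ∈ X := fun a ha => ⟨(hAm.prop.1 a ha).1, rfl⟩
    obtain ⟨z, hzZ, hzc⟩ : ∃ z ∈ Zf X, φ z σ ≠ c0 := by
      by_contra hcon
      push Not at hcon
      have h1 := hZ3 X σ hσX (fun z hz' _ => hcon z hz') (fun z hz' hlt' => absurd (hz z hz') (not_lt.2 hlt'.le))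
      exact lt_irrefl _ (hz σ h1)
    have hzX : z ∈ X := hZ1 X hzZ
    have h3 : insert z A ∈ {A : Set T | (∀ a ∈ A, a < σ ∧ φ a σ ≠ c0) ∧ ∀ a ∈ A, ∀ b ∈ A, a < b → φ a b = φ a σ} := by
      refine ⟨?_, ?_⟩
      · intro a ha
        rcases mem_insert_iff.1 ha with rfl | ha
        · exact ⟨hz _ hzZ, hzc⟩
        · exact hAm.prop.1 a ha
      · intro a ha b hb hab
        rcases mem_insert_iff.1 ha with ea | ha1
        · rcases mem_insert_iff.1 hb with eb | hb1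
          · rw [ea, eb] at hab
            exact absurd hab (lt_irrefl _)
          · rw [ea] at hab
            exact absurd hab (not_lt.2 (hzX b hb1).1.le)
        · rcases mem_insert_iff.1 hb with eb | hb1
          · rw [eb]
            exact (hzX a ha1).2
          · exact hAm.prop.2 a ha1 b hb1 hab
    have h4 : z ∈ A := hAm.le_of_ge h3 (subset_insert z A) (mem_insert z A)
    exact lt_irrefl _ (hzX z h4).1
  obtain ⟨c, t, ht, hcard, h⟩ := infinite_pigeonhole_set (s := A) (fun x => φ x.1 σ) τ hAc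
    hτ.aleph0_le (by rwa [hτ.cof_ord])
  have htne : t.Nonempty := by
    rw [Set.nonempty_iff_ne_empty]
    rintro rfl
    rw [mk_emptyCollection] at hcard
    exact absurd (Cardinal.aleph0_pos.trans_le (hτ.aleph0_le.trans hcard)) (lt_irrefl _)
  obtain ⟨a0, ha0⟩ := htne
  refine ⟨c, ?_, t, hcard, ?_⟩
  · rw [← h ha0]
    exact (hAm.prop.1 a0 (ht ha0)).2
  · intro a ha b hb hab
    rw [hAm.prop.2 a (ht ha) b (ht hb) hab]
    exact h ha

end Pool.Agent.H55R3.GCH
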