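import Pool.Agent.H55R3.GCH.Stmts

set_option autoImplicit false

open Cardinal Set

universe u

namespace Pool.Agent.H55R3.GCH

namespace LexAux

variable {W M R : Type u} [LinearOrder W] [LinearOrder M] [WellFoundedLT M] [LinearOrder R]

/-- a family indexed by fewer than `cof W` points is bounded -/
lemma bdd {I : Type u} (hI : #I < Order.cof W) (A : I → W) : ∃ a, ∀ i, A i < a := by
  have h : ¬ IsCofinal (range A) := by
    intro h
    have := Order.cof_le h
    exact absurd (this.trans mk_range_le) (not_le.2 hI)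
  rw [not_isCofinal_iff] at h
  obtain ⟨a, ha⟩ := h
  exact ⟨a, fun i => ha _ (mem_range_self i)⟩

/-- coordinatewise stabilisation -/
lemma ev_const (hM : #M < Order.cof W) (G : W → M → R) (le : R → R → Prop)
    (hlex : ∀ ξ a b, a ≤ b → (∀ η < ξ, G a η = G b η) → le (G a ξ) (G b ξ))
    (hev : ∀ (h : W → R) (a0 : W), (∀ a b, a0 ≤ a → a ≤ b → le (h a) (h b)) →
      ∃ a1, ∀ b, a1 ≤ b → h b = h a1) :
    ∃ a, ∀ b, a ≤ b → G b = G a := by
  have key : ∀ ξ : M, ∃ a, ∀ b, a ≤ b → G b ξ = G a ξ := by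
    intro ξ
    induction ξ using WellFoundedLT.induction with
    | ind ξ ih =>
      have ih' : ∀ η : {η : M // η < ξ}, ∃ a, ∀ b, a ≤ b → G b η.1 = G a η.1 :=
        fun η => ih η.1 η.2
      choose A hA using ih'
      obtain ⟨a, ha⟩ := bdd (I := {η : M // η < ξ}) ((mk_subtype_le _).trans_lt hM) A
      apply hev (fun x => G x ξ) a
      intro x y hx hy
      apply hlex ξ x y hy
      intro η hη
      rw [hA ⟨η, hη⟩ x ((ha ⟨η, hη⟩).le.trans hx),
        hA ⟨η, hη⟩ y ((ha ⟨η, hη⟩).le.trans (hx.trans hy))]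
  choose A hA using key
  obtain ⟨a, ha⟩ := bdd (I := M) hM A
  refine ⟨a, fun b hb => ?_⟩
  funext ξ
  rw [hA ξ b ((ha ξ).le.trans hb), hA ξ a (ha ξ).le]

lemma hev_ge [WellFoundedLT R] (h : W → R) (a0 : W)
    (hh : ∀ a b, a0 ≤ a → a ≤ b → h a ≥ h b) : ∃ a1, ∀ b, a1 ≤ b → h b = h a1 := by
  obtain ⟨r, ⟨a1, ha1, rfl⟩, hr⟩ := (wellFounded_lt (α := R)).has_min (h '' Ici a0) ⟨h a0, a0, le_refl _, rfl⟩
  refine ⟨a1, fun b hb => ?_⟩
  apply le_antisymm
  · exact hh a1 b ha1 hb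
  · exact not_lt.1 (hr (h b) ⟨b, le_trans ha1 hb, rfl⟩)

lemma hev_le (hR : #R < Order.cof W) (h : W → R) (a0 : W)
    (hh : ∀ a b, a0 ≤ a → a ≤ b → h a ≤ h b) : ∃ a1, ∀ b, a1 ≤ b → h b = h a1 := by
  have h1 : IsCofinal (⋃ r : R, {a : W | a0 ≤ a ∧ h a = r}) := by
    intro x
    refine ⟨max x a0, ?_, le_max_left _ _⟩
    simp
  obtain ⟨r, hr⟩ := isCofinal_of_isCofinal_iUnion h1 hR
  obtain ⟨a1, ⟨ha1, e1⟩, -⟩ := hr a0
  refine ⟨a1, fun b hb => ?_⟩
  obtain ⟨c, ⟨hc, ec⟩, hbc⟩ := hr b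
  apply le_antisymm
  · rw [e1, ← ec]
    exact hh b c (ha1.trans hb) hbc
  · exact hh a1 b ha1 hb

/-- a cardinal is represented inside a big well order -/
lemma emb (lam : Cardinal.{u}) (X : Type u) [LinearOrder X] [WellFoundedLT X] (h : lam ≤ #X) :
    ∃ e : lam.ord.ToType → X, StrictMono e := by
  have h1 : Ordinal.type (α := lam.ord.ToType) (· < ·) ≤ Ordinal.type (α := X) (· < ·) := by
    rw [Ordinal.type_toType]
    exact (ord_le_ord.2 h).trans (ord_le_type _)
  obtain ⟨e⟩ := Ordinal.type_le_iff'.1 h1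
  exact ⟨e, fun a b hab => e.map_rel_iff.2 hab⟩

end LexAux

open LexAux in
theorem taskLex : TaskLex.{u} := by
  classical
  intro ρ hρ hcof
  have hμ0 : ℵ₀ ≤ ρ.ord.cof := by
    rw [Ordinal.aleph0_le_cof_iff, Ordinal.one_lt_cof_iff]
    exact isSuccLimit_ord hρ
  have hinj : #((Order.succ ρ).ord.ToType) ≤ #(ρ.ord.cof.ord.ToType → ρ.ord.ToType) := by
    rw [mk_ord_toType, ← Cardinal.power_def, mk_ord_toType, mk_ord_toType]
    exact Order.succ_le_of_lt (lt_power_cof_ord hρ)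
  obtain ⟨F⟩ := hinj
  let L : (ρ.ord.cof.ord.ToType → ρ.ord.ToType) → (ρ.ord.cof.ord.ToType → ρ.ord.ToType) → Prop :=
    fun x y => ∃ i, (∀ j, j < i → x j = y j) ∧ x i < y i
  have hcomp : ∀ x y, x ≠ y → L x y ∨ L y x := by
    intro x y hxy
    obtain ⟨i, hi, hmin⟩ := (wellFounded_lt (α := ρ.ord.cof.ord.ToType)).has_min
      {i | x i ≠ y i} (Function.ne_iff.1 hxy)
    have hag : ∀ j, j < i → x j = y j := by
      intro j hj
      by_contra hne
      exact hmin j hne hj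
    rcases lt_or_gt_of_ne (show x i ≠ y i from hi) with h | h
    · exact Or.inl ⟨i, hag, h⟩
    · exact Or.inr ⟨i, fun j hj => (hag j hj).symm, h⟩
  -- if `L x y` and `x, y` agree below `ξ` then `x ξ ≤ y ξ`
  have hLle : ∀ x y ξ, L x y → (∀ η, η < ξ → x η = y η) → x ξ ≤ y ξ := by
    rintro x y ξ ⟨i, hi, hlt⟩ hag
    rcases lt_trichotomy i ξ with h | h | h
    · exact absurd (hag i h) hlt.ne
    · rw [← h]; exact hlt.le
    · exact (hi ξ h).le
  have key : ∀ (lam : Cardinal.{u}), lam.IsRegular → ρ.ord.cof < lam →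
      ∀ (e : lam.ord.ToType → (Order.succ ρ).ord.ToType), StrictMono e →
      ∀ le : ρ.ord.ToType → ρ.ord.ToType → Prop,
      (∀ ξ a b, a ≤ b → (∀ η, η < ξ → F (e a) η = F (e b) η) → le (F (e a) ξ) (F (e b) ξ)) →
      (∀ (h : lam.ord.ToType → ρ.ord.ToType) (a0 : lam.ord.ToType),
        (∀ a b, a0 ≤ a → a ≤ b → le (h a) (h b)) → ∃ a1, ∀ b, a1 ≤ b → h b = h a1) → False := by
    intro lam hreg hlt e he le h1 h2
    have hc : Order.cof lam.ord.ToType = lam := by
      rw [Ordinal.cof_toType, hreg.cof_ord]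
    obtain ⟨a, ha⟩ := ev_const (W := lam.ord.ToType) (M := ρ.ord.cof.ord.ToType)
      (by rw [mk_ord_toType, hc]; exact hlt) (fun x => F (e x)) le h1 h2
    obtain ⟨b, hb⟩ := bdd (W := lam.ord.ToType) (I := PUnit.{u+1})
      (by rw [hc, mk_punit]; exact lt_of_lt_of_le one_lt_aleph0 hreg.aleph0_le) (fun _ => a)
    have hab := hb PUnit.unit
    have := ha b hab.le
    exact (he hab).ne (F.injective this.symm)
  refine ⟨fun a b => decide (L (F b) (F a)), ?_, ?_⟩
  · intro Y hY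
    by_contra hcon
    rw [not_le] at hcon
    obtain ⟨e, he⟩ := emb (Order.succ ρ.ord.cof) Y (Order.succ_le_of_lt hcon)
    have hdec : ∀ a b, a < b → L (F (e b)) (F (e a)) := by
      intro a b hab
      have := hY (e a) (e a).2 (e b) (e b).2 (he hab)
      simpa using this
    refine key _ (isRegular_succ hμ0) (Order.lt_succ _) (fun x => (e x).1)
      (fun a b hab => he hab) (fun x y => x ≥ y) ?_ (fun h a0 => hev_ge h a0)
    intro ξ a b hab hag
    rcases hab.eq_or_lt with h | h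
    · rw [h]
    · exact hLle _ _ ξ (hdec a b h) (fun η hη => (hag η hη).symm)
  · intro Y hY
    by_contra hcon
    rw [not_le] at hcon
    obtain ⟨e, he⟩ := emb (Order.succ ρ) Y (Order.succ_le_of_lt hcon)
    have hinc : ∀ a b, a < b → L (F (e a)) (F (e b)) := by
      intro a b hab
      have h1 := hY (e a) (e a).2 (e b) (e b).2 (he hab)
      have h2 : ¬ L (F (e b)) (F (e a)) := by simpa using h1
      have hne : F (e a).1 ≠ F (e b).1 := fun h => (he hab).ne (Subtype.ext (F.injective h))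
      exact (hcomp _ _ hne).resolve_right h2
    refine key _ (isRegular_succ hρ) (hcof.trans (Order.lt_succ _)) (fun x => (e x).1)
      (fun a b hab => he hab) (fun x y => x ≤ y) ?_
      (fun h a0 => hev_le (by
        rw [mk_ord_toType, Ordinal.cof_toType, (isRegular_succ hρ).cof_ord]
        exact Order.lt_succ _) h a0)
    intro ξ a b hab hag
    rcases hab.eq_or_lt with h | h
    · rw [h]
    · exact hLle _ _ ξ (hinc a b h) hag

end Pool.Agent.H55R3.GCH
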