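import Pool.Agent.H55R3.GCH.New
import Pool.Agent.H55R3.GCH.Blocks
import Pool.Agent.H55R3.GCH.TaskArith
import Pool.Agent.H174R3.GCH.TaskMany
import Pool.Agent.H330.Final

/-!
# Pairs to triples under GCH
-/

set_option autoImplicit false

open Cardinal Set

universe u

namespace Pool.Agent.H55R3.GCH

open Pool.Agent.H330

/-- the generalised continuum hypothesis (in the universe `u`) -/
def GCH : Prop := ∀ c : Cardinal.{u}, ℵ₀ ≤ c → (2 : Cardinal.{u}) ^ c = Order.succ c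

/-- The exceptional sequences: `κ` is singular, its cofinality is the successor of a singular
cardinal `ρ`, the number of colours lies in `[cf ρ, ρ)`, one entry is `κ` and all other entries are
at most `cf ρ` and not infinite regular cardinals. -/
def Exc (κ : Cardinal.{u}) {Γ : Type u} (lam : Γ → Cardinal.{u}) : Prop :=
  ∃ ρ : Cardinal.{u}, ℵ₀ ≤ ρ ∧ ρ.ord.cof < ρ ∧ κ.ord.cof = Order.succ ρ ∧ κ.ord.cof < κ ∧
    ρ.ord.cof ≤ #Γ ∧ #Γ < ρ ∧ ∃ c0, lam c0 = κ ∧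
      ∀ c, c ≠ c0 → lam c ≤ ρ.ord.cof ∧ ¬ (lam c).IsRegular

lemma strong_limit (gch : GCH.{u}) {κ : Cardinal.{u}} (hκ : ℵ₀ < κ)
    (hlim : ∀ ρ < κ, Order.succ ρ < κ) : ∀ ρ < κ, (2 : Cardinal.{u}) ^ ρ < κ := by
  intro ρ hρ
  rcases lt_or_ge ρ ℵ₀ with h | h
  · exact (Cardinal.power_lt_aleph0 Cardinal.ofNat_lt_aleph0 h).trans hκ
  · rw [gch ρ h]; exact hlim ρ hρ

/-- `l ^ n < θ` for a strong limit `θ` -/
lemma pow_lt_of_strong {θ : Cardinal.{u}} (hθ : ℵ₀ < θ)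
    (hs : ∀ ρ < θ, (2 : Cardinal.{u}) ^ ρ < θ) (l n : Cardinal.{u}) (hl : l < θ) (hn : n < θ) :
    l ^ n < θ := by
  set m := max (max l n) ℵ₀ with hm
  have hmθ : m < θ := max_lt (max_lt hl hn) hθ
  have hm0 : ℵ₀ ≤ m := le_max_right _ _
  have hm1 : m ≠ 0 := fun h => by rw [h] at hm0; exact absurd hm0 (not_le.2 Cardinal.aleph0_pos)
  calc l ^ n ≤ m ^ n := Cardinal.power_le_power_right ((le_max_left _ _).trans (le_max_left _ _))
    _ ≤ m ^ m := Cardinal.power_le_power_left hm1 ((le_max_right _ _).trans (le_max_left _ _))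
    _ = 2 ^ m := Cardinal.power_self_eq hm0
    _ < θ := hs m hmθ

/-- the case of an entry equal to the singular cardinal `κ` -/
theorem case_top (gch : GCH.{u}) (hER : TaskER.{u}) (hCanon : TaskCanon.{u}) (hLex : TaskLex.{u})
    {κ : Cardinal.{u}} (hκ : ℵ₀ ≤ κ) (hκs : κ.ord.cof < κ) {Γ : Type u} (hΓκ : #Γ < κ)
    {lam : Γ → Cardinal.{u}} (hlam : ∀ ν, 2 < lam ν ∧ lam ν ≤ κ)
    {f : Finset κ.ord.ToType → Γ} (hf : NA lam 2 f) (hreg : ∀ ν, ¬ (lam ν).IsRegular)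
    (hexc : ¬ Exc κ lam) (c0 : Γ) (hc0 : lam c0 = κ) :
    (∃ lam' : Γ → Cardinal.{u}, (∀ ν, 2 ≤ lam' ν ∧ lam' ν ≤ lam ν) ∧ (∃ ν, (lam' ν).IsRegular) ∧
      ∃ f' : Finset κ.ord.ToType → Γ, NA lam' 2 f') ∨
    ∃ g : Finset ((2 : Cardinal.{u}) ^ κ).ord.ToType → Γ, NA (fun ν => lam ν + 1) 3 g := by
  classical
  by_cases hc1 : ∃ c1, c1 ≠ c0 ∧ κ.ord.cof < lam c1
  · obtain ⟨c1, hne, h1⟩ := hc1
    exact Or.inl (taskBlock κ hκ hκs Γ lam c0 c1 hne (fun ν => (hlam ν).1.le) hc0 h1)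
  push Not at hc1
  have hθreg : κ.ord.cof.IsRegular := Cardinal.isRegular_cof (Cardinal.isSuccLimit_ord hκ)
  have hlt : ∀ c, c ≠ c0 → lam c < κ.ord.cof := by
    intro c hc
    rcases (hc1 c hc).lt_or_eq with h | h
    · exact h
    · exact absurd (h ▸ hθreg) (hreg c)
  by_cases hA : ℵ₀ ≤ #Γ ∧ κ.ord.cof ≤ (2 : Cardinal.{u}) ^ #Γ
  · exact Or.inr (taskNew κ hκ hκs (gch κ hκ) Γ lam c0 hA.1 hA.2 (fun ν => (hlam ν).1) hc0)
  -- the positive part
  have hκ0 : ℵ₀ < κ := hθreg.aleph0_le.trans_lt hκs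
  have hlim := succ_lt_of_singular hκ hκs
  have hstrong := strong_limit gch hκ0 hlim
  have hpair : ∀ {c : Γ} {Y : Set κ.ord.ToType}, lam c ≤ #Y →
      ∃ a ∈ Y, ∃ b ∈ Y, a < b ∧ f {a, b} ≠ c := by
    intro c Y hY
    obtain ⟨s, h1, h2, h3⟩ := hf.of_le hY
    obtain ⟨x, y, hxy, rfl⟩ := Finset.card_eq_two.1 h1
    have hx : x ∈ Y := h2 (by simp)
    have hy : y ∈ Y := h2 (by simp)
    rcases lt_or_gt_of_ne hxy with h | h
    · exact ⟨x, hx, y, hy, h, h3⟩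
    · exact ⟨y, hy, x, hx, h, by rwa [Finset.pair_comm]⟩
  obtain ⟨x, hx, hxZ⟩ := hCanon κ hκ hκs hstrong Γ hΓκ f c0 κ.ord.cof hκs
    (fun c hc Y hY => hpair ((hlt c hc).le.trans hY))
    (fun Y hY => hpair (by rw [hY, hc0]))
  -- homogeneous sets for the induced colouring
  have hcontra : ∀ c, c ≠ c0 → ∀ A : Set κ.ord.cof.ord.ToType, lam c ≤ #A →
      (∀ a ∈ A, ∀ b ∈ A, a < b → f {x a, x b} = c) → False := by
    intro c hc A hA hhom
    have h1 : lam c ≤ #(x '' A) := by rwa [Cardinal.mk_image_eq hx]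
    obtain ⟨a, ⟨i, hi, rfl⟩, b, ⟨j, hj, rfl⟩, hab, h2⟩ := hpair h1
    have hij : i ≠ j := fun h => by rw [h] at hab; exact lt_irrefl _ hab
    rcases lt_or_gt_of_ne hij with h | h
    · exact h2 (hhom i hi j hj h)
    · exact h2 (by rw [Finset.pair_comm]; exact hhom j hj i hi h)
  -- using the unbalanced theorem
  have hER' : ∀ τ : Cardinal.{u}, τ.IsRegular → τ < κ.ord.cof → #Γ < τ →
      (∀ l < κ.ord.cof, ∀ n < τ, l ^ n < κ.ord.cof) → (∀ c, c ≠ c0 → lam c ≤ τ) → False := by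
    intro τ h1 h2 h3 h4 h5
    obtain ⟨c, hc, A, hA, hhom⟩ := hER κ.ord.cof τ hθreg h1 h2 Γ h3 h4
      (fun i j => f {x i, x j}) c0 hxZ
    exact hcontra c hc A ((h5 c hc).trans hA) hhom
  have hΓ2 : ℵ₀ ≤ #Γ → (2 : Cardinal.{u}) ^ #Γ < κ.ord.cof := by
    intro h
    by_contra h'
    exact hA ⟨h, not_lt.1 h'⟩
  rcases hθreg.aleph0_le.lt_or_eq with hθ0 | hθ0
  · -- uncountable cofinality
    have hΓθ : #Γ < κ.ord.cof := by
      rcases lt_or_ge #Γ ℵ₀ with h | h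
      · exact h.trans hθ0
      · exact (Cardinal.cantor _).trans (hΓ2 h)
    by_cases hθlim : ∀ ρ < κ.ord.cof, Order.succ ρ < κ.ord.cof
    · -- a regular limit
      exfalso
      have hθs := strong_limit gch hθ0 hθlim
      have hσ : (⨆ c : {c : Γ // c ≠ c0}, lam c.1) < κ.ord.cof := by
        apply Cardinal.iSup_lt_of_lt_cof_ord
        · rw [hθreg.cof_ord]
          exact (Cardinal.mk_subtype_le _).trans_lt hΓθ
        · intro c
          exact hlt c.1 c.2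
      set σ := ⨆ c : {c : Γ // c ≠ c0}, lam c.1 with hσdef
      set τ := Order.succ (max (max σ #Γ) ℵ₀) with hτ
      have hτθ : τ < κ.ord.cof := hθlim _ (max_lt (max_lt hσ hΓθ) hθ0)
      refine hER' τ (Cardinal.isRegular_succ (le_max_right _ _)) hτθ ?_ ?_ ?_
      · exact Order.lt_succ_of_le ((le_max_right _ _).trans (le_max_left _ _))
      · intro l hl n hn
        exact pow_lt_of_strong hθ0 hθs l n hl (hn.trans hτθ)
      · intro c hc
        have h1 : lam c ≤ σ := le_ciSup (f := fun c : {c : Γ // c ≠ c0} => lam c.1)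
          (Cardinal.bddAbove_of_small) ⟨c, hc⟩
        exact h1.trans (((le_max_left _ _).trans (le_max_left _ _)).trans (Order.le_succ _))
    · push Not at hθlim
      obtain ⟨ρ, hρ1, hρ2⟩ := hθlim
      have hθρ : κ.ord.cof = Order.succ ρ := le_antisymm hρ2 (Order.succ_le_of_lt hρ1)
      have hρ0 : ℵ₀ ≤ ρ := by
        by_contra h
        push Not at h
        obtain ⟨n, rfl⟩ := Cardinal.lt_aleph0.1 h
        rw [hθρ, Cardinal.succ_natCast] at hθ0
        exact absurd hθ0 (not_lt.2 (by exact_mod_cast (Cardinal.natCast_lt_aleph0 (n := n + 1)).le))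
      have hΓρ : #Γ < ρ := by
        rcases lt_or_ge #Γ ℵ₀ with h | h
        · exact h.trans_le hρ0
        · have h1 := hΓ2 h
          rw [gch _ h, hθρ] at h1
          exact Order.succ_lt_succ_iff.1 h1
      have hle : ∀ c, c ≠ c0 → lam c ≤ ρ := by
        intro c hc
        have := hlt c hc
        rw [hθρ] at this
        exact Order.lt_succ_iff.1 this
      have hpow : ∀ l < κ.ord.cof, ∀ n < ρ.ord.cof, l ^ n < κ.ord.cof := by
        intro l hl n hn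
        rw [hθρ] at hl ⊢
        refine Order.lt_succ_iff.2 ?_
        exact (Cardinal.power_le_power_right (Order.lt_succ_iff.1 hl)).trans
          (taskArith gch ρ n hρ0 hn)
      by_cases hρs : ρ.ord.cof < ρ
      · have hμreg : ρ.ord.cof.IsRegular := Cardinal.isRegular_cof (Cardinal.isSuccLimit_ord hρ0)
        by_cases hc2 : ∃ c1, c1 ≠ c0 ∧ ρ.ord.cof < lam c1
        · obtain ⟨c1, hne, h1⟩ := hc2
          left
          have hlex := hLex ρ hρ0 hρs
          rw [← hθρ] at hlex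
          obtain ⟨φ, hφ1, hφ2⟩ := hlex
          refine block_gen hκ hκs hμreg.aleph0_le φ hφ1 ?_ hne (fun ν => (hlam ν).1.le) hc0 h1
          intro Y hY
          exact (hφ2 Y hY).trans_lt ((Order.lt_succ ρ).trans_eq hθρ.symm)
        · push Not at hc2
          exfalso
          rcases lt_or_ge #Γ ρ.ord.cof with h | h
          · exact hER' ρ.ord.cof hμreg (hρs.trans (by rw [hθρ]; exact Order.lt_succ ρ)) h hpow hc2
          · exact hexc ⟨ρ, hρ0, hρs, hθρ, hκs, h, hΓρ, c0, hc0, fun c hc => ⟨hc2 c hc, hreg c⟩⟩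
      · exfalso
        have hρreg : ρ.IsRegular := ⟨hρ0, not_lt.1 hρs⟩
        refine hER' ρ hρreg (by rw [hθρ]; exact Order.lt_succ ρ) hΓρ ?_ hle
        intro l hl n hn
        exact hpow l hl n (by rw [hρreg.cof_ord]; exact hn)
  · -- countable cofinality
    exfalso
    have hΓfin : #Γ < ℵ₀ := by
      by_contra h
      have h1 := hΓ2 (not_lt.1 h)
      rw [← hθ0] at h1
      exact absurd h1 (not_lt.2 ((not_lt.1 h).trans (Cardinal.cantor _).le))
    have hinf := pos_two_edm hf (fun ν => (hlam ν).1.le) (c0 := c0) (by rw [hc0]; exact hκ)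
      (by rw [hc0, Cardinal.mk_ord_toType]) (fun ν hν => by
        have := hlt ν hν
        rwa [← hθ0] at this)
    have : Finite Γ := Cardinal.lt_aleph0_iff_finite.1 hΓfin
    exact hinf (Set.toFinite _)

/-- if fewer than `cf η` entries exceed some `τ < η` and all entries are `< η`, then the supremum
is `< η` -/
lemma many_of_iSup {η : Cardinal.{u}} {Γ : Type u} {lam : Γ → Cardinal.{u}}
    (hlt : ∀ ν, lam ν < η) (hsup : η ≤ ⨆ ν, lam ν) (hne : Nonempty Γ) :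
    ∀ τ < η, η.ord.cof ≤ #{ν : Γ | τ < lam ν} := by
  intro τ hτ
  by_contra hcon
  push Not at hcon
  have h1 : (⨆ ν : {ν : Γ | τ < lam ν}, lam ν.1) < η :=
    Cardinal.iSup_lt_of_lt_cof_ord hcon (fun ν => hlt ν.1)
  have h2 : (⨆ ν, lam ν) ≤ max τ (⨆ ν : {ν : Γ | τ < lam ν}, lam ν.1) := by
    refine ciSup_le fun ν => ?_
    by_cases h : τ < lam ν
    · exact le_max_of_le_right (le_ciSup (f := fun ν : {ν : Γ | τ < lam ν} => lam ν.1)
        Cardinal.bddAbove_of_small ⟨ν, h⟩)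
    · exact le_max_of_le_left (not_lt.1 h)
  exact absurd (hsup.trans h2) (not_le.2 (max_lt hτ h1))

/-- the case in which all entries are smaller than `κ` -/
theorem case_small (gch : GCH.{u})
    {κ : Cardinal.{u}} (hκ : ℵ₀ ≤ κ) {Γ : Type u} (hΓκ : #Γ < κ)
    {lam : Γ → Cardinal.{u}} (hlam : ∀ ν, 2 < lam ν ∧ lam ν < κ)
    {f : Finset κ.ord.ToType → Γ} (hf : NA lam 2 f) (hreg : ∀ ν, ¬ (lam ν).IsRegular)
    (hinf : ∃ ν, ℵ₀ ≤ lam ν) (hbig : ℵ₀ ≤ #Γ → Order.succ #Γ < κ) :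
    ∃ lam' : Γ → Cardinal.{u}, (∀ ν, 2 ≤ lam' ν ∧ lam' ν ≤ lam ν) ∧ (∃ ν, (lam' ν).IsRegular) ∧
      ∃ f' : Finset κ.ord.ToType → Γ, NA lam' 2 f' := by
  classical
  obtain ⟨ν0, hν0⟩ := hinf
  have hne : Nonempty Γ := ⟨ν0⟩
  set η := ⨆ ν, lam ν with hη
  have hleη : ∀ ν, lam ν ≤ η := fun ν => le_ciSup Cardinal.bddAbove_of_small ν
  have hη0 : ℵ₀ ≤ η := hν0.trans (hleη ν0)
  have hηκ : η ≤ κ := ciSup_le fun ν => (hlam ν).2.le
  rcases hηκ.lt_or_eq with hlt | heq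
  · -- `η < κ`
    have hκ2 : κ ≤ Order.succ (max η #Γ) := by
      have hm0 : ℵ₀ ≤ max η #Γ := hη0.trans (le_max_left _ _)
      rw [← gch _ hm0]
      by_contra hcon
      push Not at hcon
      have hcard : (2 : Cardinal.{u}) ^ (max η #Γ) < #κ.ord.ToType := by
        rwa [Cardinal.mk_ord_toType]
      obtain ⟨H, hH, c, hc⟩ := Pool.Agent.H764R3.ER.erdos_rado hm0 hcard (le_max_right η #Γ)
        (fun a b => f {a, b})
      have h1 : lam c ≤ #H := (hleη c).trans ((le_max_left _ _).trans ((Order.le_succ _).trans hH))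
      obtain ⟨s, h2, h3, h4⟩ := hf.of_le h1
      obtain ⟨x, y, hxy, rfl⟩ := Finset.card_eq_two.1 h2
      have hx : x ∈ H := h3 (by simp)
      have hy : y ∈ H := h3 (by simp)
      rcases lt_or_gt_of_ne hxy with h | h
      · exact h4 (hc x hx y hy h)
      · exact h4 (by rw [Finset.pair_comm]; exact hc y hy x hx h)
    have hΓη : #Γ < η := by
      by_contra hcon
      have h1 := not_lt.1 hcon
      rw [max_eq_right h1] at hκ2
      exact absurd (hbig (hη0.trans h1)) (not_lt.2 hκ2)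
    rw [max_eq_left hΓη.le] at hκ2
    have hηs : η.ord.cof < η := by
      by_contra hcon
      have hηreg : η.IsRegular := ⟨hη0, not_lt.1 hcon⟩
      have h1 : ∀ ν, lam ν < η := by
        intro ν
        rcases (hleη ν).lt_or_eq with h | h
        · exact h
        · exact absurd (h ▸ hηreg) (hreg ν)
      have h2 : (⨆ ν, lam ν) < η := Cardinal.iSup_lt_of_lt_cof_ord (by rw [hηreg.cof_ord]; exact hΓη) h1
      exact lt_irrefl _ h2
    refine taskFromMany κ η hη0 hηs hκ hκ2 Γ lam (fun ν => (hlam ν).1.le) ?_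
    exact Pool.Agent.H174R3.GCHMany.taskMany gch κ η hη0 hηs hlt Γ lam f hΓη
      (fun ν => ⟨(hlam ν).1.le, hleη ν⟩) hf
  · -- `η = κ`
    have hκs : κ.ord.cof < κ := by
      by_contra hcon
      have hκreg : κ.IsRegular := ⟨hκ, not_lt.1 hcon⟩
      have h2 : (⨆ ν, lam ν) < κ := Cardinal.iSup_lt_of_lt_cof_ord
        (by rw [hκreg.cof_ord]; exact hΓκ) (fun ν => (hlam ν).2)
      rw [← hη, heq] at h2
      exact lt_irrefl _ h2
    refine taskFromMany κ κ hκ hκs hκ (Order.le_succ κ) Γ lam (fun ν => (hlam ν).1.le) ?_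
    exact many_of_iSup (fun ν => (hlam ν).2) heq.ge hne

/-- pairs to triples -/
theorem main_two_gch (gch : GCH.{u}) (hER : TaskER.{u}) (hCanon : TaskCanon.{u})
    (hLex : TaskLex.{u}) {κ : Cardinal.{u}} (hκ : ℵ₀ ≤ κ) {Γ : Type u} (hΓκ : #Γ < κ)
    {lam : Γ → Cardinal.{u}} (hlam : ∀ ν, 2 < lam ν ∧ lam ν ≤ κ)
    {f : Finset κ.ord.ToType → Γ} (hf : NA lam 2 f) (hexc : ¬ Exc κ lam) :
    ∃ g : Finset ((2 : Cardinal.{u}) ^ κ).ord.ToType → Γ, NA (fun ν => lam ν + 1) 3 g := by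
  classical
  have hlam2 : ∀ ν, (2 : Cardinal) ≤ lam ν ∧ lam ν ≤ κ := fun ν => ⟨(hlam ν).1.le, (hlam ν).2⟩
  by_cases hreg : ∃ ν, (lam ν).IsRegular
  · exact main_two hκ hlam2 hf (Or.inr (Or.inl hreg))
  by_cases hfin : ∀ ν, lam ν < ℵ₀
  · exact main_two hκ hlam2 hf (Or.inl hfin)
  by_cases hbig : ℵ₀ ≤ #Γ ∧ κ ≤ Order.succ #Γ
  · refine main_two hκ hlam2 hf (Or.inr (Or.inr ?_))
    have h1 : #{ν : Γ | (2 : Cardinal) < lam ν} = #Γ := by
      have : {ν : Γ | (2 : Cardinal) < lam ν} = Set.univ := by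
        ext ν; simp [(hlam ν).1]
      rw [this, Cardinal.mk_univ]
    rw [h1, gch _ hbig.1]
    exact Cardinal.power_le_power_left two_ne_zero hbig.2
  push Not at hreg hfin hbig
  have key : (∃ lam' : Γ → Cardinal.{u}, (∀ ν, 2 ≤ lam' ν ∧ lam' ν ≤ lam ν) ∧
      (∃ ν, (lam' ν).IsRegular) ∧ ∃ f' : Finset κ.ord.ToType → Γ, NA lam' 2 f') ∨
      ∃ g : Finset ((2 : Cardinal.{u}) ^ κ).ord.ToType → Γ, NA (fun ν => lam ν + 1) 3 g := by
    by_cases hc0 : ∃ c0, lam c0 = κ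
    · obtain ⟨c0, hc0⟩ := hc0
      have hκs : κ.ord.cof < κ := by
        by_contra hcon
        exact hreg c0 (hc0 ▸ ⟨hκ, not_lt.1 hcon⟩)
      exact case_top gch hER hCanon hLex hκ hκs hΓκ hlam hf hreg hexc c0 hc0
    · push Not at hc0
      exact Or.inl (case_small gch hκ hΓκ (fun ν => ⟨(hlam ν).1, (hlam ν).2.lt_of_ne (hc0 ν)⟩) hf hreg
        hfin hbig)
  rcases key with ⟨lam', h1, h2, f', h3⟩ | h
  · obtain ⟨g, hg⟩ := main_two hκ (fun ν => ⟨(h1 ν).1, (h1 ν).2.trans (hlam ν).2⟩) h3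
      (Or.inr (Or.inl h2))
    exact ⟨g, hg.mono (fun ν => add_le_add (h1 ν).2 le_rfl)⟩
  · exact h

/-- triples to quadruples -/
theorem main_three_gch (gch : GCH.{u}) {κ : Cardinal.{u}} (hκ : ℵ₀ ≤ κ) {Γ : Type u}
    {lam : Γ → Cardinal.{u}} (hlam : ∀ ν, (3 : Cardinal) ≤ lam ν ∧ lam ν ≤ κ)
    {f : Finset κ.ord.ToType → Γ} (hf : NA lam 3 f) :
    ∃ g : Finset ((2 : Cardinal.{u}) ^ κ).ord.ToType → Γ, NA (fun ν => lam ν + 1) 4 g := by
  refine main_three hκ hlam hf ?_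
  intro c0 _ _ hc0 _ hlt hle _
  exfalso
  have h1 : (2 : Cardinal.{u}) ^< lam c0 ≤ lam c0 := by
    rw [Cardinal.powerlt_le]
    intro x hx
    rcases lt_or_ge x ℵ₀ with h | h
    · exact ((Cardinal.power_lt_aleph0 Cardinal.ofNat_lt_aleph0 h).le).trans hc0
    · rw [gch x h]; exact Order.succ_le_of_lt hx
  exact absurd (hle.trans h1) (not_le.2 hlt)

end Pool.Agent.H55R3.GCH
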